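import Pool.Agent.Helper17.SZ.Dstr

/-!
A special case of the Baer and Suzuki theorem.
-/

set_option autoImplicit false

namespace H17SZ

open Subgroup

lemma grow {K : Type*} [Group K] [Finite K] {P : Subgroup K} (hP : IsPGroup 2 P) {T : Set K}
    (hT : ∀ t ∈ T, ∀ g, cj t g ∈ T) {R : Subgroup K} (hRP : R ≤ P)
    (hR : R = Subgroup.closure (T ∩ R)) (hne : ∃ t ∈ T, t ∈ P ∧ t ∉ R) :
    ∃ y ∈ T, y ∈ P ∧ y ∉ R ∧ y ∈ Subgroup.normalizer (R : Set K) := by
  haveI : Fact (Nat.Prime 2) := ⟨Nat.prime_two⟩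
  by_cases h : P ≤ Subgroup.normalizer (R : Set K)
  · obtain ⟨t, ht, htP, htR⟩ := hne
    exact ⟨t, ht, htP, htR, h htP⟩
  · obtain ⟨N, hN⟩ : ∃ N : Subgroup K, N = Subgroup.normalizer (R : Set K) ⊓ P := ⟨_, rfl⟩
    have hlt : N.subgroupOf P < ⊤ := by
      rw [lt_top_iff_ne_top]
      intro htop
      apply h
      intro x hx
      have : (⟨x, hx⟩ : P) ∈ N.subgroupOf P := by rw [htop]; trivial
      rw [Subgroup.mem_subgroupOf] at this
      rw [hN] at this
      exact this.1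
    haveI : Group.IsNilpotent P := hP.isNilpotent
    have nc : NormalizerCondition P := normalizerCondition_of_isNilpotent
    obtain ⟨s, hs, hs'⟩ := SetLike.exists_of_lt (nc _ hlt)
    rw [Subgroup.mem_subgroupOf] at hs'
    have hsR : (s : K) ∉ Subgroup.normalizer (R : Set K) := fun hh => hs' (by rw [hN]; exact ⟨hh, s.2⟩)
    have hex : ∃ γ ∈ T ∩ (R : Set K), cj γ (s : K) ∉ R := by
      by_contra hcon
      push Not at hcon
      apply hsR
      have hmap : ∀ x ∈ R, cj x (s : K) ∈ R := by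
        intro x hx
        rw [hR] at hx
        induction hx using Subgroup.closure_induction with
        | mem x hx => exact hcon x hx
        | one => rw [one_cj]; exact R.one_mem
        | mul x y _ _ ix iy => rw [cj_mul]; exact R.mul_mem ix iy
        | inv x _ ix => rw [cj_inv]; exact R.inv_mem ix
      let f : R → R := fun x => ⟨cj x.1 (s : K), hmap x.1 x.2⟩
      have hinj : Function.Injective f := by
        intro x y hxy
        have := congrArg Subtype.val hxy
        exact Subtype.ext (cj_inj.1 this)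
      have hsurj := Finite.injective_iff_surjective.1 hinj
      rw [Subgroup.mem_normalizer_iff'']
      intro x
      constructor
      · intro hx; exact hmap x hx
      · intro hx
        obtain ⟨z, hz⟩ := hsurj ⟨_, hx⟩
        have h1 : cj z.1 (s : K) = cj x (s : K) := congrArg Subtype.val hz
        rw [cj_inj] at h1
        rw [← h1]; exact z.2
    obtain ⟨γ, ⟨hγT, hγR⟩, hγs⟩ := hex
    have hγN : γ ∈ N := by rw [hN]; exact ⟨Subgroup.le_normalizer hγR, hRP hγR⟩
    rw [Subgroup.mem_normalizer_iff''] at hs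
    have h1 := (hs ⟨γ, hRP hγR⟩).1 (by rw [Subgroup.mem_subgroupOf]; exact hγN)
    rw [Subgroup.mem_subgroupOf] at h1
    have h2 : cj γ (s : K) ∈ N := h1
    rw [hN] at h2
    exact ⟨cj γ s, hT γ hγT _, h2.2, hγs, h2.1⟩

theorem baer_suzuki {K : Type*} [Group K] [Finite K] (hS : Spec K) {T : Set K}
    (hinv : ∀ t ∈ T, IsInv t) (hT : ∀ t ∈ T, ∀ g, cj t g ∈ T)
    (hE : ∀ s ∈ T, ∀ t ∈ T, Ev s t) : ∃ P : Subgroup K, IsPGroup 2 P ∧ T ⊆ P := by
  classical
  haveI : Fact (Nat.Prime 2) := ⟨Nat.prime_two⟩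
  by_contra hcon
  push Not at hcon
  -- all intersections T ∩ P have the same size
  have hcard : ∀ P Q : Sylow 2 K, (T ∩ (P : Set K)).ncard ≤ (T ∩ (Q : Set K)).ncard := by
    intro P Q
    obtain ⟨g, hg⟩ := MulAction.exists_smul_eq K P Q
    apply Set.ncard_le_ncard_of_injOn (fun x => cj x g⁻¹)
    · rintro x ⟨hxT, hxP⟩
      refine ⟨hT x hxT _, ?_⟩
      rw [← hg]
      show cj x g⁻¹ ∈ ((g • P : Sylow 2 K) : Subgroup K)
      rw [Sylow.coe_subgroup_smul, Subgroup.mem_pointwise_smul_iff_inv_smul_mem]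
      have : (MulAut.conj g)⁻¹ • (cj x g⁻¹) = x := by
        rw [← map_inv, MulAut.smul_def, MulAut.conj_apply]
        unfold cj; group
      rw [this]
      exact hxP
    · intro x _ y _ hxy
      exact cj_inj.1 hxy
  have hmem : ∀ t ∈ T, ∃ Q : Sylow 2 K, t ∈ (Q : Subgroup K) := by
    intro t ht
    have h1 : IsPGroup 2 (Subgroup.zpowers t) := by
      rintro ⟨x, hx⟩
      obtain ⟨k, rfl⟩ := Subgroup.mem_zpowers_iff.1 hx
      refine ⟨1, Subtype.ext ?_⟩
      show (t ^ k) ^ (2 ^ 1) = 1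
      rw [pow_one, pow_two, (Commute.refl (t ^ k)).eq, ← zpow_add, ← two_mul, zpow_mul,
        zpow_two, (hinv t ht).1, one_zpow]
    obtain ⟨Q, hQ⟩ := h1.exists_le_sylow
    exact ⟨Q, hQ (Subgroup.mem_zpowers t)⟩
  -- pairs
  let X : Set (Sylow 2 K × Sylow 2 K) := {p | T ∩ (p.1 : Set K) ≠ T ∩ (p.2 : Set K)}
  have hXne : X.Nonempty := by
    obtain ⟨P⟩ : Nonempty (Sylow 2 K) := inferInstance
    have h1 := hcon P P.isPGroup'
    rw [Set.not_subset] at h1
    obtain ⟨t, ht, htP⟩ := h1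
    obtain ⟨Q, hQ⟩ := hmem t ht
    refine ⟨(P, Q), ?_⟩
    intro heq
    have : t ∈ T ∩ (Q : Set K) := ⟨ht, hQ⟩
    rw [← heq] at this
    exact htP this.2
  obtain ⟨⟨P, Q⟩, hPQ, hmax⟩ := Set.Finite.exists_maximalFor
    (fun p : Sylow 2 K × Sylow 2 K => (T ∩ (p.1 : Set K) ∩ (p.2 : Set K)).ncard) X
    (Set.toFinite _) hXne
  have hmax' : ∀ p ∈ X, (T ∩ (p.1 : Set K) ∩ (p.2 : Set K)).ncard ≤
      (T ∩ (P : Set K) ∩ (Q : Set K)).ncard := by
    intro p hp
    by_contra hlt
    push Not at hlt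
    have := hmax hp hlt.le
    simp only at this
    omega
  obtain ⟨Γ, hΓ⟩ : ∃ Γ : Set K, Γ = T ∩ (P : Set K) ∩ (Q : Set K) := ⟨_, rfl⟩
  obtain ⟨R, hRdef⟩ : ∃ R : Subgroup K, R = Subgroup.closure Γ := ⟨_, rfl⟩
  have hRP : R ≤ (P : Subgroup K) := by
    rw [hRdef, Subgroup.closure_le, hΓ]; rintro x ⟨⟨_, hx⟩, _⟩; exact hx
  have hRQ : R ≤ (Q : Subgroup K) := by
    rw [hRdef, Subgroup.closure_le, hΓ]; rintro x ⟨_, hx⟩; exact hx
  have hTR : T ∩ (R : Set K) = Γ := by
    ext x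
    constructor
    · rintro ⟨h1, h2⟩
      rw [hΓ]
      exact ⟨⟨h1, hRP h2⟩, hRQ h2⟩
    · intro hx
      refine ⟨?_, ?_⟩
      · rw [hΓ] at hx; exact hx.1.1
      · rw [hRdef]; exact Subgroup.subset_closure hx
  have hR : R = Subgroup.closure (T ∩ R) := by rw [hTR]; exact hRdef
  have hfin : ∀ A : Set K, A.Finite := fun A => Set.toFinite A
  have hP1 : ∃ t ∈ T, t ∈ (P : Subgroup K) ∧ t ∉ R := by
    by_contra hc
    push Not at hc
    have hsub : T ∩ (P : Set K) ⊆ T ∩ (Q : Set K) := by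
      rintro x ⟨hx, hxP⟩
      exact ⟨hx, hRQ (hc x hx hxP)⟩
    exact hPQ (Set.eq_of_subset_of_ncard_le hsub (hcard Q P) (hfin _))
  have hQ1 : ∃ t ∈ T, t ∈ (Q : Subgroup K) ∧ t ∉ R := by
    by_contra hc
    push Not at hc
    have hsub : T ∩ (Q : Set K) ⊆ T ∩ (P : Set K) := by
      rintro x ⟨hx, hxQ⟩
      exact ⟨hx, hRP (hc x hx hxQ)⟩
    exact hPQ (Set.eq_of_subset_of_ncard_le hsub (hcard P Q) (hfin _)).symm
  obtain ⟨y, hyT, hyP, hyR, hyN⟩ := grow P.isPGroup' hT hRP hR hP1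
  obtain ⟨z, hzT, hzQ, hzR, hzN⟩ := grow Q.isPGroup' hT hRQ hR hQ1
  -- the group generated by y and z is a 2-group
  have hyz : IsPGroup 2 (Subgroup.closure {y, z}) := by
    obtain ⟨t, ht, hty, htz⟩ : ∃ t, IsInv t ∧ Commute y t ∧ Commute z t := by
      by_cases hc : Commute y z
      · exact ⟨y, hinv y hyT, Commute.refl y, hc.symm⟩
      · exact ⟨_, isInv_sq_of_ev (hE y hyT z hzT) hc (hinv y hyT) (hinv z hzT),
          (commute_sq_left (hE y hyT z hzT) (hinv y hyT) (hinv z hzT)).symm,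
          (commute_sq_right (hE y hyT z hzT) (hinv y hyT) (hinv z hzT)).symm⟩
    have hle : Subgroup.closure {y, z} ≤ Subgroup.centralizer {t} := by
      rw [Subgroup.closure_le]
      rintro x (rfl | rfl)
      · rw [SetLike.mem_coe, Subgroup.mem_centralizer_singleton_iff]; exact hty.eq
      · rw [SetLike.mem_coe, Subgroup.mem_centralizer_singleton_iff]; exact htz.eq
    rintro ⟨x, hx⟩
    refine ⟨2, Subtype.ext ?_⟩
    show x ^ (2 ^ 2) = 1
    have h1 := hle hx
    rw [Subgroup.mem_centralizer_singleton_iff] at h1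
    exact pow_four_of_commute hS ht h1
  have hle2 : Subgroup.closure {y, z} ≤ Subgroup.normalizer (R : Set K) := by
    rw [Subgroup.closure_le]
    rintro x (rfl | rfl)
    · exact hyN
    · exact hzN
  have hsup : IsPGroup 2 (Subgroup.closure {y, z} ⊔ R : Subgroup K) :=
    hyz.to_sup_of_normal_right' (P.isPGroup'.to_le hRP) hle2
  obtain ⟨U, hU⟩ := hsup.exists_le_sylow
  have hyU : y ∈ (U : Subgroup K) := hU (Subgroup.mem_sup_left (Subgroup.subset_closure (by simp)))
  have hzU : z ∈ (U : Subgroup K) := hU (Subgroup.mem_sup_left (Subgroup.subset_closure (by simp)))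
  have hRU : R ≤ (U : Subgroup K) := le_trans le_sup_right hU
  have hyΓ : y ∉ Γ := fun h => hyR (by rw [hRdef]; exact Subgroup.subset_closure h)
  have hzΓ : z ∉ Γ := fun h => hzR (by rw [hRdef]; exact Subgroup.subset_closure h)
  have hΓR : Γ ⊆ R := by rw [← hTR]; exact Set.inter_subset_right
  have e1 : T ∩ (P : Set K) = T ∩ (U : Set K) := by
    by_contra hne
    have h1 := hmax' (P, U) hne
    have h2 : (insert y Γ) ⊆ T ∩ (P : Set K) ∩ (U : Set K) := by
      rintro x (rfl | hx)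
      · exact ⟨⟨hyT, hyP⟩, hyU⟩
      · have hx' := hx
        rw [hΓ] at hx'
        exact ⟨hx'.1, hRU (hΓR hx)⟩
    have h3 := Set.ncard_le_ncard h2 (hfin _)
    rw [Set.ncard_insert_of_notMem hyΓ (hfin _)] at h3
    simp only at h1
    rw [← hΓ] at h1
    omega
  have e2 : T ∩ (U : Set K) = T ∩ (Q : Set K) := by
    by_contra hne
    have h1 := hmax' (U, Q) hne
    have h2 : (insert z Γ) ⊆ T ∩ (U : Set K) ∩ (Q : Set K) := by
      rintro x (rfl | hx)
      · exact ⟨⟨hzT, hzU⟩, hzQ⟩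
      · have hx' := hx
        rw [hΓ] at hx'
        exact ⟨⟨hx'.1.1, hRU (hΓR hx)⟩, hx'.2⟩
    have h3 := Set.ncard_le_ncard h2 (hfin _)
    rw [Set.ncard_insert_of_notMem hzΓ (hfin _)] at h3
    simp only at h1
    rw [← hΓ] at h1
    omega
  exact hPQ (e1.trans e2)

/-- in a finite simple nonabelian group with `Spec`, every class of involutions contains an odd
pair. -/
theorem exists_odd_of_simple {K : Type*} [Group K] [Finite K] [IsSimpleGroup K]
    (hS : Spec K) (hab : ∃ a b : K, a * b ≠ b * a) {u : K} (hu : IsInv u) :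
    ∃ x : K, ¬ Ev u (cj u x) := by
  by_contra hcon
  push Not at hcon
  haveI : Fact (Nat.Prime 2) := ⟨Nat.prime_two⟩
  let T : Set K := Set.range (fun x => cj u x)
  have hTinv : ∀ t ∈ T, IsInv t := by rintro _ ⟨x, rfl⟩; exact hu.cj x
  have hTc : ∀ t ∈ T, ∀ g, cj t g ∈ T := by
    rintro _ ⟨x, rfl⟩ g
    exact ⟨x * g, (cj_cj u x g).symm⟩
  have hTE : ∀ s ∈ T, ∀ t ∈ T, Ev s t := by
    rintro _ ⟨x, rfl⟩ _ ⟨y, rfl⟩
    have := (hcon (y * x⁻¹)).cj x
    rw [cj_cj] at this
    have e : y * x⁻¹ * x = y := by group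
    rwa [e] at this
  obtain ⟨P, hP, hTP⟩ := baer_suzuki hS hTinv hTc hTE
  have hcl : Subgroup.closure T ≤ P := (Subgroup.closure_le P).2 hTP
  have hN : (Subgroup.closure T).Normal := by
    constructor
    intro n hn g
    have h1 : ∀ x ∈ Subgroup.closure T, cj x g⁻¹ ∈ Subgroup.closure T := by
      intro x hx
      induction hx using Subgroup.closure_induction with
      | mem x hx => exact Subgroup.subset_closure (hTc x hx _)
      | one => rw [one_cj]; exact Subgroup.one_mem _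
      | mul x y _ _ ix iy => rw [cj_mul]; exact Subgroup.mul_mem _ ix iy
      | inv x _ ix => rw [cj_inv]; exact Subgroup.inv_mem _ ix
    have := h1 n hn
    unfold cj at this
    rwa [inv_inv] at this
  have huT : u ∈ Subgroup.closure T := Subgroup.subset_closure ⟨1, cj_one u⟩
  rcases hN.eq_bot_or_eq_top with h | h
  · rw [h, Subgroup.mem_bot] at huT
    exact hu.2 huT
  · have hPtop : P = ⊤ := top_le_iff.1 (by rw [← h]; exact hcl)
    have hK : IsPGroup 2 K := by
      rw [hPtop] at hP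
      exact hP.of_equiv Subgroup.topEquiv
    haveI : Nontrivial K := ⟨⟨u, 1, hu.2⟩⟩
    haveI := hK.center_nontrivial
    obtain ⟨a, b, hab⟩ := hab
    rcases (inferInstance : (Subgroup.center K).Normal).eq_bot_or_eq_top with h2 | h2
    · have : Nontrivial (⊥ : Subgroup K) := by rw [← h2]; infer_instance
      exact not_nontrivial _ this
    · have : b ∈ Subgroup.center K := by rw [h2]; trivial
      rw [Subgroup.mem_center_iff] at this
      exact hab (this a)

end H17SZ
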