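import Mathlib

/-!
Groups covered by conjugates: basic facts on groups in which every element has order dividing 4
or odd order.
-/

set_option autoImplicit false

namespace H17SZ

variable {G : Type*} [Group G]

/-- `u` is an involution. -/
def IsInv (u : G) : Prop := u * u = 1 ∧ u ≠ 1

/-- `u`, `v` form an even pair: `(uv)^4 = 1`. -/
def Ev (u v : G) : Prop := (u * v) ^ 4 = 1

/-- `x^g = g⁻¹ x g`. -/
def cj (x g : G) : G := g⁻¹ * x * g

/-- every element has order dividing 4 or odd order. -/
def Spec (G : Type*) [Group G] : Prop := ∀ g : G, g ^ 4 = 1 ∨ Odd (orderOf g)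

lemma cj_mul (x y g : G) : cj (x * y) g = cj x g * cj y g := by
  simp only [cj]; group

lemma cj_cj (x g h : G) : cj (cj x g) h = cj x (g * h) := by
  simp only [cj]; group

@[simp] lemma cj_one (x : G) : cj x 1 = x := by simp [cj]

@[simp] lemma one_cj (g : G) : cj (1 : G) g = 1 := by simp [cj]

lemma cj_pow (x g : G) (n : ℕ) : cj (x ^ n) g = cj x g ^ n := by
  induction n with
  | zero => simp
  | succ n ih => rw [pow_succ, pow_succ, cj_mul, ih]

lemma cj_inj {x y g : G} : cj x g = cj y g ↔ x = y := by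
  simp [cj]

lemma cj_inv (x g : G) : cj x⁻¹ g = (cj x g)⁻¹ := by
  simp only [cj]; group

lemma IsInv.inv_eq {u : G} (h : IsInv u) : u⁻¹ = u := by
  rw [inv_eq_iff_mul_eq_one]; exact h.1

lemma IsInv.cj {u : G} (h : IsInv u) (g : G) : IsInv (cj u g) := by
  constructor
  · rw [← cj_mul, h.1, one_cj]
  · intro hh
    rw [← one_cj g, cj_inj] at hh
    exact h.2 hh

lemma IsInv.pow_four {u : G} (h : IsInv u) : u ^ 4 = 1 := by
  have : u ^ 4 = (u * u) * (u * u) := by simp only [pow_succ, pow_zero, one_mul, mul_assoc]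
  rw [this, h.1, one_mul]

lemma Ev.symm {u v : G} (hu : IsInv u) (hv : IsInv v) (h : Ev u v) : Ev v u := by
  have h1 : v * u = (u * v)⁻¹ := by rw [mul_inv_rev, hu.inv_eq, hv.inv_eq]
  unfold Ev at *
  rw [h1, inv_pow, h, inv_one]

lemma Ev.cj {u v : G} (h : Ev u v) (g : G) : Ev (cj u g) (cj v g) := by
  unfold Ev at *
  rw [← cj_mul, ← cj_pow, h, one_cj]

lemma Ev.cj_iff {u v : G} (g : G) : Ev (H17SZ.cj u g) (H17SZ.cj v g) ↔ Ev u v := by
  constructor
  · intro h
    have := h.cj g⁻¹
    simpa [cj_cj] using this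
  · intro h; exact h.cj g

lemma Ev.refl {u : G} (h : IsInv u) : Ev u u := by
  unfold Ev; rw [h.1, one_pow]

lemma ev_of_commute {u v : G} (hu : IsInv u) (hv : IsInv v) (h : Commute u v) : Ev u v := by
  unfold Ev
  rw [h.mul_pow, hu.pow_four, hv.pow_four, one_mul]

/-- an involution only commutes with elements killed by 4. -/
lemma pow_four_of_commute (hS : Spec G) {t g : G} (ht : IsInv t) (h : Commute g t) :
    g ^ 4 = 1 := by
  rcases hS g with h1 | h1
  · exact h1
  rcases hS (t * g) with h2 | h2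
  · rw [h.symm.mul_pow, ht.pow_four, one_mul] at h2
    exact h2
  · exfalso
    -- (t g)^m = 1 with m odd
    obtain ⟨k, hk⟩ := h2
    have h3 : (t * g) ^ (2 * k + 1) = 1 := by rw [← hk]; exact pow_orderOf_eq_one _
    rw [h.symm.mul_pow] at h3
    have ht2 : t ^ (2 * k + 1) = t := by
      rw [pow_succ, pow_mul, pow_two, ht.1, one_pow, one_mul]
    rw [ht2] at h3
    obtain ⟨n, hn⟩ := h1
    have h4 : (t * g ^ (2 * k + 1)) ^ (2 * n + 1) = 1 := by rw [h3, one_pow]
    have hc : Commute t (g ^ (2 * k + 1)) := h.symm.pow_right _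
    have h5 : (g ^ (2 * k + 1)) ^ (2 * n + 1) = 1 := by
      rw [← pow_mul, mul_comm, pow_mul, ← hn, pow_orderOf_eq_one, one_pow]
    rw [hc.mul_pow, h5, mul_one, pow_succ, pow_mul, pow_two, ht.1, one_pow, one_mul] at h4
    exact ht.2 h4

/-- from a nontrivial element killed by 4 we get an involution commuting with everything that
commutes with it. -/
lemma exists_inv_of_pow_four {g : G} (h4 : g ^ 4 = 1) (h1 : g ≠ 1) :
    ∃ t : G, IsInv t ∧ (t = g ∨ t = g * g) := by
  by_cases h2 : g * g = 1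
  · exact ⟨g, ⟨h2, h1⟩, Or.inl rfl⟩
  · refine ⟨g * g, ⟨?_, h2⟩, Or.inr rfl⟩
    have : g * g * (g * g) = g ^ 4 := by simp only [pow_succ, pow_zero, one_mul, mul_assoc]
    rw [this, h4]

lemma eq_one_of_commute (hS : Spec G) {u v g : G} (hu : IsInv u)
    (huv : ¬ Ev u v) (h1 : Commute g u) (h2 : Commute g v) : g = 1 := by
  by_contra hg
  obtain ⟨t, ht, hh⟩ := exists_inv_of_pow_four (pow_four_of_commute hS hu h1) hg
  apply huv
  have h3 : Commute t u := by
    rcases hh with rfl | rfl
    · exact h1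
    · exact h1.mul_left h1
  have h4 : Commute t v := by
    rcases hh with rfl | rfl
    · exact h2
    · exact h2.mul_left h2
  exact pow_four_of_commute hS ht (h3.mul_right h4).symm

lemma odd_of_not_ev (hS : Spec G) {u v : G} (h : ¬ Ev u v) : Odd (orderOf (u * v)) := by
  rcases hS (u * v) with h1 | h1
  · exact absurd h1 h
  · exact h1

lemma isInv_sq_of_ev {u v : G} (h : Ev u v) (hne : ¬ Commute u v) (hu : IsInv u) (hv : IsInv v) :
    IsInv (u * v * (u * v)) := by
  constructor
  · have : u * v * (u * v) * (u * v * (u * v)) = (u * v) ^ 4 := by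
      simp only [pow_succ, pow_zero, one_mul, mul_assoc]
    rw [this]; exact h
  · intro hh
    apply hne
    have h1 : u * v = (u * v)⁻¹ := by rw [eq_inv_iff_mul_eq_one]; exact hh
    rw [mul_inv_rev, hu.inv_eq, hv.inv_eq] at h1
    exact h1

/-- `(uv)^2` commutes with `u` and with `v`, if `(uv)^4 = 1`. -/
lemma commute_sq_left {u v : G} (h : Ev u v) (hu : IsInv u) (hv : IsInv v) :
    Commute (u * v * (u * v)) u := by
  unfold Ev at h
  have h1 : u * v * (u * v) = (u * v * (u * v))⁻¹ := by
    rw [eq_inv_iff_mul_eq_one]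
    have : u * v * (u * v) * (u * v * (u * v)) = (u * v) ^ 4 := by
      simp only [pow_succ, pow_zero, one_mul, mul_assoc]
    rw [this]; exact h
  have h2 : (u * v * (u * v))⁻¹ = v * u * (v * u) := by
    rw [mul_inv_rev, mul_inv_rev, hu.inv_eq, hv.inv_eq]
  show u * v * (u * v) * u = u * (u * v * (u * v))
  conv_rhs => rw [h1, h2]
  simp only [mul_assoc]

lemma commute_sq_right {u v : G} (h : Ev u v) (hu : IsInv u) (hv : IsInv v) :
    Commute (u * v * (u * v)) v := by
  unfold Ev at h
  have h1 : u * v * (u * v) = (u * v * (u * v))⁻¹ := by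
    rw [eq_inv_iff_mul_eq_one]
    have : u * v * (u * v) * (u * v * (u * v)) = (u * v) ^ 4 := by
      simp only [pow_succ, pow_zero, one_mul, mul_assoc]
    rw [this]; exact h
  have h2 : (u * v * (u * v))⁻¹ = v * u * (v * u) := by
    rw [mul_inv_rev, mul_inv_rev, hu.inv_eq, hv.inv_eq]
  show u * v * (u * v) * v = v * (u * v * (u * v))
  conv_lhs => rw [h1, h2]
  simp only [mul_assoc]

end H17SZ
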