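import Pool.Agent.Helper17.SZ.Dstr

/-!
Counting: Jordan's theorem on coverings of a finite group, and the elementary case of Frobenius'
theorem (complement of even order).
-/

set_option autoImplicit false

namespace H17SZ

open MulAction

/-- Burnside's lemma for the action on cosets. -/
lemma burnside {G : Type*} [Group G] [Fintype G] (H : Subgroup G) :
    ∑ g : G, Nat.card (fixedBy (G ⧸ H) g) = Nat.card G := by
  classical
  letI : Fintype (G ⧸ H) := Fintype.ofFinite _
  letI : Fintype (Quotient (orbitRel G (G ⧸ H))) := Fintype.ofFinite _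
  have h := sum_card_fixedBy_eq_card_orbits_mul_card_group G (G ⧸ H)
  have h1 : Fintype.card (Quotient (orbitRel G (G ⧸ H))) = 1 := by
    have : Subsingleton (Quotient (orbitRel G (G ⧸ H))) :=
      (pretransitive_iff_subsingleton_quotient G (G ⧸ H)).1 inferInstance
    exact Fintype.card_eq_one_iff_nonempty_unique.2
      ⟨⟨⟨Quotient.mk _ ((1 : G) : G ⧸ H)⟩, fun a => Subsingleton.elim _ _⟩⟩
  rw [h1, one_mul] at h
  rw [Nat.card_eq_fintype_card, ← h]
  apply Finset.sum_congr rfl
  intro g _
  exact Nat.card_eq_fintype_card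

lemma mem_fixedBy_iff {G : Type*} [Group G] (H : Subgroup G) (g x : G) :
    (x : G ⧸ H) ∈ fixedBy (G ⧸ H) g ↔ x⁻¹ * g * x ∈ H := by
  rw [mem_fixedBy]
  have : g • (x : G ⧸ H) = ((g * x : G) : G ⧸ H) := rfl
  rw [this]
  constructor
  · intro h
    have h2 := QuotientGroup.eq.1 h.symm
    rw [← mul_assoc] at h2
    exact h2
  · intro h
    symm
    rw [QuotientGroup.eq, ← mul_assoc]
    exact h

/-- **Jordan**: a finite group is not the union of the conjugates of a proper subgroup. -/
theorem jordan {G : Type*} [Group G] [Finite G] (H : Subgroup G)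
    (hcov : ∀ g : G, ∃ x : G, x⁻¹ * g * x ∈ H) : H = ⊤ := by
  classical
  letI : Fintype G := Fintype.ofFinite _
  by_contra hne
  have h := burnside H
  have hge : ∀ g : G, 1 ≤ Nat.card (fixedBy (G ⧸ H) g) := by
    intro g
    obtain ⟨x, hx⟩ := hcov g
    haveI : Nonempty (fixedBy (G ⧸ H) g) := ⟨⟨(x : G ⧸ H), (mem_fixedBy_iff H g x).2 hx⟩⟩
    exact Nat.card_pos
  have h1 : 2 ≤ Nat.card (fixedBy (G ⧸ H) (1 : G)) := by
    have e : fixedBy (G ⧸ H) (1 : G) = Set.univ := by
      ext q; simp
    rw [e, Nat.card_univ]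
    have : H.index ≠ 1 := fun hh => hne (Subgroup.index_eq_one.1 hh)
    have h0 : H.index ≠ 0 := Subgroup.index_ne_zero_of_finite
    have : H.index = Nat.card (G ⧸ H) := rfl
    omega
  have h2 : ∑ g : G, (1 : ℕ) < ∑ g : G, Nat.card (fixedBy (G ⧸ H) g) :=
    Finset.sum_lt_sum (fun g _ => hge g) ⟨1, Finset.mem_univ _, h1⟩
  rw [h] at h2
  simp at h2

/-- Elementary Frobenius: in a finite simple nonabelian group with `Spec`, not all pairs of distinct
involutions are odd. -/
theorem exists_ev_of_simple {K : Type*} [Group K] [Finite K] [IsSimpleGroup K]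
    (hS : Spec K) (hab : ∃ a b : K, a * b ≠ b * a) {u : K} (hu : IsInv u) :
    ∃ v, IsInv v ∧ Ev u v ∧ v ≠ u := by
  classical
  by_contra hcon
  push Not at hcon
  letI : Fintype K := Fintype.ofFinite _
  have hodd : ∀ x y : K, cj u x ≠ cj u y → ¬ Ev (cj u x) (cj u y) := by
    intro x y hne hE
    have h1 := hE.cj x⁻¹
    rw [cj_cj, mul_inv_cancel, cj_one, cj_cj] at h1
    have h2 := hcon _ (hu.cj _) h1
    apply hne
    have h3 : cj (cj u (y * x⁻¹)) x = cj u x := by rw [h2]
    rw [cj_cj] at h3
    rw [← h3]; congr 1; group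
  let C : Subgroup K := Subgroup.centralizer {u}
  have hC : ∀ g x : K, x⁻¹ * g * x ∈ C ↔ Commute g (cj u x⁻¹) := by
    intro g x
    rw [Subgroup.mem_centralizer_singleton_iff]
    unfold cj
    rw [inv_inv]
    constructor
    · intro h
      show g * (x * u * x⁻¹) = x * u * x⁻¹ * g
      calc g * (x * u * x⁻¹) = x * (x⁻¹ * g * x * u) * x⁻¹ := by group
        _ = x * (u * (x⁻¹ * g * x)) * x⁻¹ := by rw [h]
        _ = _ := by group
    · intro h
      have h' : g * (x * u * x⁻¹) = x * u * x⁻¹ * g := h
      calc x⁻¹ * g * x * u = x⁻¹ * (g * (x * u * x⁻¹)) * x := by group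
        _ = x⁻¹ * (x * u * x⁻¹ * g) * x := by rw [h']
        _ = u * (x⁻¹ * g * x) := by group
  -- number of fixed points of g ≠ 1 is at most one
  have hle : ∀ g : K, g ≠ 1 → Nat.card (fixedBy (K ⧸ C) g) ≤ 1 := by
    intro g hg
    rw [Finite.card_le_one_iff_subsingleton]
    constructor
    rintro ⟨p, hp⟩ ⟨q, hq⟩
    obtain ⟨x, rfl⟩ := QuotientGroup.mk_surjective p
    obtain ⟨y, rfl⟩ := QuotientGroup.mk_surjective q
    rw [mem_fixedBy_iff, hC] at hp hq
    apply Subtype.ext
    show (x : K ⧸ C) = (y : K ⧸ C)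
    by_cases hne : cj u x⁻¹ = cj u y⁻¹
    · rw [QuotientGroup.eq, Subgroup.mem_centralizer_singleton_iff]
      have h1 : cj u (x⁻¹ * y) = u := by
        rw [← cj_cj, hne, cj_cj, inv_mul_cancel, cj_one]
      exact (cj_eq_iff_commute.1 h1).eq
    · exact absurd (eq_one_of_commute hS (hu.cj _) (hodd _ _ hne) hp hq) hg
  set f : K → ℕ := fun g => Nat.card (fixedBy (K ⧸ C) g) with hf
  have hb : ∑ g : K, f g = Nat.card K := burnside C
  have hf1 : f 1 = Nat.card (K ⧸ C) := by
    have e : fixedBy (K ⧸ C) (1 : K) = Set.univ := by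
      ext q; simp
    simp only [hf]
    rw [e, Nat.card_univ]
  -- the set of elements with no fixed point
  set Z : Finset K := (Finset.univ.erase 1).filter (fun g => f g = 0) with hZ
  have h2 : ∑ g ∈ Finset.univ.erase (1 : K), (f g + (if f g = 0 then 1 else 0)) =
      ∑ g ∈ Finset.univ.erase (1 : K), 1 := by
    apply Finset.sum_congr rfl
    intro g hg
    have hg1 : g ≠ 1 := (Finset.mem_erase.1 hg).1
    have := hle g hg1
    change f g ≤ 1 at this
    split_ifs with h0 <;> omega
  rw [Finset.sum_add_distrib, ← Finset.card_filter, ← Finset.card_eq_sum_ones,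
    Finset.card_erase_of_mem (Finset.mem_univ _), Finset.card_univ] at h2
  have h3 : f 1 + ∑ g ∈ Finset.univ.erase (1 : K), f g = Nat.card K := by
    rw [← hb]; exact Finset.add_sum_erase _ f (Finset.mem_univ 1)
  have hcardK : Nat.card K = Fintype.card K := Nat.card_eq_fintype_card
  have hKpos : 0 < Fintype.card K := Fintype.card_pos
  have hXpos : 0 < Nat.card (K ⧸ C) := Nat.card_pos
  have hZcard : Z.card + 1 = Nat.card (K ⧸ C) := by
    rw [hf1] at h3
    change ∑ g ∈ Finset.univ.erase (1 : K), f g + Z.card = Fintype.card K - 1 at h2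
    have hle2 : ∑ g ∈ Finset.univ.erase (1 : K), f g ≤ Fintype.card K - 1 := by omega
    omega
  -- Kst
  set Kst : Set K := {g | ∀ x : K, Commute g (cj u x) → g = 1} with hKst
  have hKstZ : Kst = ((insert 1 Z : Finset K) : Set K) := by
    ext g
    simp only [hKst, Set.mem_setOf_eq, Finset.coe_insert, Set.mem_insert_iff, Finset.mem_coe, hZ,
      Finset.mem_filter, Finset.mem_erase, Finset.mem_univ, and_true]
    constructor
    · intro h
      by_cases hg : g = 1
      · left; exact hg
      · right
        refine ⟨hg, ?_⟩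
        simp only [hf]
        rw [Finite.card_eq_zero_iff]
        constructor
        rintro ⟨p, hp⟩
        obtain ⟨x, rfl⟩ := QuotientGroup.mk_surjective p
        rw [mem_fixedBy_iff, hC] at hp
        exact hg (h _ hp)
    · rintro (rfl | ⟨hg, h0⟩)
      · intros; rfl
      · intro x hx
        exfalso
        simp only [hf] at h0
        rw [Finite.card_eq_zero_iff] at h0
        apply h0.false (⟨((x⁻¹ : K) : K ⧸ C), ?_⟩ : fixedBy (K ⧸ C) g)
        rw [mem_fixedBy_iff, hC, inv_inv]
        exact hx
  have hKcard : Nat.card Kst = Nat.card (K ⧸ C) := by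
    rw [hKstZ, Nat.card_eq_card_toFinset]
    simp only [Finset.toFinset_coe]
    rw [Finset.card_insert_of_notMem, hZcard]
    simp [hZ]
  -- for every x, Kst = (cj u x) * T
  have key : ∀ x : K, ∀ g ∈ Kst, ∃ y : K, g = cj u x * cj u y := by
    intro x
    let φ : K ⧸ C → Kst := fun q => ⟨cj u x * cj u (q.out)⁻¹, by
      intro z hz
      by_contra hne
      have h4 : (cj u x * cj u (q.out)⁻¹) ^ 4 = 1 := pow_four_of_commute hS (hu.cj z) hz
      by_cases he : cj u x = cj u (q.out)⁻¹
      · apply hne
        rw [he]; exact (hu.cj _).1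
      · exact hodd _ _ he h4⟩
    have hinj : Function.Injective φ := by
      intro p q h
      have h1 : cj u x * cj u (p.out)⁻¹ = cj u x * cj u (q.out)⁻¹ := congrArg Subtype.val h
      have h2 := mul_left_cancel h1
      rw [← QuotientGroup.out_eq' p, ← QuotientGroup.out_eq' q, QuotientGroup.eq,
        Subgroup.mem_centralizer_singleton_iff]
      have h1 : cj u ((p.out)⁻¹ * q.out) = u := by
        rw [← cj_cj, h2, cj_cj, inv_mul_cancel, cj_one]
      exact (cj_eq_iff_commute.1 h1).eq
    have hbij : Function.Bijective φ :=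
      (Nat.bijective_iff_injective_and_card φ).2 ⟨hinj, hKcard.symm⟩
    intro g hg
    obtain ⟨q, hq⟩ := hbij.2 ⟨g, hg⟩
    exact ⟨(q.out)⁻¹, (congrArg Subtype.val hq).symm⟩
  have key2 : ∀ x y : K, cj u x * cj u y ∈ Kst := by
    intro x y z hz
    by_contra hne
    have h4 : (cj u x * cj u y) ^ 4 = 1 := pow_four_of_commute hS (hu.cj z) hz
    by_cases he : cj u x = cj u y
    · apply hne
      rw [he]; exact (hu.cj _).1
    · exact hodd _ _ he h4
  let N : Subgroup K :=
    { carrier := Kst
      mul_mem' := by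
        intro a b ha hb
        obtain ⟨y, rfl⟩ := key 1 a ha
        obtain ⟨z, rfl⟩ := key y b hb
        have : cj u 1 * cj u y * (cj u y * cj u z) = cj u 1 * cj u z := by
          calc cj u 1 * cj u y * (cj u y * cj u z) = cj u 1 * (cj u y * cj u y) * cj u z := by
                simp only [mul_assoc]
            _ = _ := by rw [(hu.cj y).1, mul_one]
        rw [this]
        exact key2 _ _
      one_mem' := fun _ _ => rfl
      inv_mem' := by
        intro a ha x hx
        have h1 : Commute a (cj u x) := by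
          have := hx.inv_left
          rwa [inv_inv] at this
        rw [ha x h1, inv_one] }
  have hN : N.Normal := by
    constructor
    intro n hn g x hx
    have h1 : Commute n (cj u (x * g)) := by
      rw [← cj_cj]
      have e : cj (g * n * g⁻¹) g = n := by unfold cj; group
      rw [← e]
      show _ * _ = _ * _
      rw [← cj_mul, hx.eq, cj_mul]
    have h2 : n = 1 := hn _ h1
    rw [h2]; group
  rcases hN.eq_bot_or_eq_top with h | h
  · -- u central
    have hcen : ∀ x, cj u x = u := by
      intro x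
      have h1 : cj u x * cj u 1 ∈ N := key2 x 1
      rw [h, Subgroup.mem_bot, cj_one] at h1
      have h2 := eq_inv_of_mul_eq_one_left h1
      rw [h2, hu.inv_eq]
    have h1 : u ∈ Subgroup.center K := by
      rw [Subgroup.mem_center_iff]
      intro g
      exact (cj_eq_iff_commute.1 (hcen g)).eq
    obtain ⟨a, b, hab⟩ := hab
    rcases (inferInstance : (Subgroup.center K).Normal).eq_bot_or_eq_top with h2 | h2
    · rw [h2, Subgroup.mem_bot] at h1
      exact hu.2 h1
    · have : b ∈ Subgroup.center K := by rw [h2]; trivial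
      rw [Subgroup.mem_center_iff] at this
      exact hab (this a)
  · have h1 : u ∈ N := by rw [h]; trivial
    have h2 : u = 1 := h1 1 (by rw [cj_one])
    exact hu.2 h2

end H17SZ
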