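import Pool.Agent.Helper17.SZ.Stat

/-!
Structure of the stabiliser of two classes.
-/

set_option autoImplicit false

namespace H17SZ

variable {G : Type*} [Group G]

/-- a conjugation invariant set of involutions on which (and from which) the even relation is
transitive. -/
structure Setup (T : Set G) : Prop where
  spec : Spec G
  inv : ∀ u ∈ T, IsInv u
  conj : ∀ u ∈ T, ∀ g, cj u g ∈ T
  closed : ∀ u ∈ T, ∀ d w, IsInv d → IsInv w → Ev u d → Ev d w → Ev u w

lemma cj_eq_iff_commute {x g : G} : cj x g = x ↔ Commute g x := by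
  unfold cj
  constructor
  · intro h
    show g * x = x * g
    calc g * x = g * (g⁻¹ * x * g) := by rw [h]
      _ = x * g := by group
  · intro h
    rw [mul_assoc, ← h.eq, ← mul_assoc, inv_mul_cancel, one_mul]

lemma exists_swap (hS : Spec G) {u s : G} (hu : IsInv u) (hs : IsInv s) (h : ¬ Ev u s) :
    ∃ w, IsInv w ∧ cj u w = s ∧ cj s w = u := by
  obtain ⟨m, hm⟩ := odd_of_not_ev hS h
  set a := u * s with ha
  have hua : u * a = s := by rw [ha, ← mul_assoc, hu.1, one_mul]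
  have h0 : u⁻¹ * a * u = a⁻¹ := by
    rw [ha, mul_inv_rev, hu.inv_eq, hs.inv_eq, ← mul_assoc, hu.1, one_mul]
  have h1 : ∀ k : ℤ, u * a ^ k * u = a ^ (-k) := by
    intro k
    have := conj_zpow_of_inv h0 k
    rwa [hu.inv_eq] at this
  have hper : a ^ ((m + 1 : ℤ) + (m + 1)) = a := by
    have e : ((m + 1 : ℤ) + (m + 1)) = ((2 * m + 1 : ℕ) : ℤ) + 1 := by push_cast; ring
    rw [e, zpow_add, zpow_natCast, ← hm, pow_orderOf_eq_one, one_mul, zpow_one]
  have hww : (u * a ^ (m + 1 : ℤ)) * (u * a ^ (m + 1 : ℤ)) = 1 := by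
    calc (u * a ^ (m + 1 : ℤ)) * (u * a ^ (m + 1 : ℤ))
        = (u * a ^ (m + 1 : ℤ) * u) * a ^ (m + 1 : ℤ) := by simp only [mul_assoc]
      _ = 1 := by rw [h1, ← zpow_add, neg_add_cancel, zpow_zero]
  have hw1 : u * a ^ (m + 1 : ℤ) ≠ 1 := by
    intro hh
    have h2 : u = a ^ (-(m + 1 : ℤ)) := by
      rw [zpow_neg]; exact eq_inv_of_mul_eq_one_left hh
    have h3 : Commute a u := by
      conv_rhs => rw [h2]
      exact Commute.zpow_right (Commute.refl a) _
    apply h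
    exact pow_four_of_commute hS hu h3
  have hwinv : (u * a ^ (m + 1 : ℤ))⁻¹ = u * a ^ (m + 1 : ℤ) := by
    rw [inv_eq_iff_mul_eq_one]; exact hww
  have hc : cj u (u * a ^ (m + 1 : ℤ)) = s := by
    unfold cj
    rw [hwinv]
    calc u * a ^ (m + 1 : ℤ) * u * (u * a ^ (m + 1 : ℤ))
        = u * a ^ (m + 1 : ℤ) * (u * u) * a ^ (m + 1 : ℤ) := by simp only [mul_assoc]
      _ = u * (a ^ (m + 1 : ℤ) * a ^ (m + 1 : ℤ)) := by rw [hu.1, mul_one, mul_assoc]
      _ = u * a := by rw [← zpow_add, hper]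
      _ = s := hua
  refine ⟨u * a ^ (m + 1 : ℤ), ⟨hww, hw1⟩, hc, ?_⟩
  rw [← hc, cj_cj, hww, cj_one]

lemma inverts (hS : Spec G) {K : Subgroup G} (hK : ∀ x ∈ K, x ^ 4 = 1 → x = 1) {w : G}
    (hw : IsInv w) (hKw : ∀ x ∈ K, cj x w ∈ K) : ∀ x ∈ K, cj x w = x⁻¹ := by
  intro x hx
  obtain ⟨y0, hy0⟩ : ∃ y0, y0 = x⁻¹ * cj x w := ⟨_, rfl⟩
  have hy0K : y0 ∈ K := by rw [hy0]; exact K.mul_mem (K.inv_mem hx) (hKw x hx)
  have hodd : Odd (orderOf y0) := by
    rcases hS y0 with h | h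
    · rw [hK y0 hy0K h, orderOf_one]; exact odd_one
    · exact h
  obtain ⟨m, hm⟩ := hodd
  have hcjj : cj (cj x w) w = x := by rw [cj_cj, hw.1, cj_one]
  have hcy0 : cj y0 w = y0⁻¹ := by
    rw [hy0, cj_mul, cj_inv, hcjj, mul_inv_rev, inv_inv]
  set y := y0 ^ (m + 1) with hy
  have hyy : y * y = y0 := by
    rw [hy, ← pow_add]
    have e : m + 1 + (m + 1) = (2 * m + 1) + 1 := by ring
    rw [e, pow_succ, ← hm, pow_orderOf_eq_one, one_mul]
  have hcy : cj y w = y⁻¹ := by rw [hy, cj_pow, hcy0, inv_pow]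
  have hxy : cj (x * y) w = x * y := by
    have h1 : cj x w = x * y0 := by rw [hy0, mul_inv_cancel_left]
    rw [cj_mul, hcy, h1, ← hyy]
    group
  have h2 : Commute (x * y) w := (cj_eq_iff_commute.1 hxy).symm
  have h3 : x * y = 1 := hK _ (K.mul_mem hx (K.pow_mem hy0K _)) (pow_four_of_commute hS hw h2)
  have h4 : x = y⁻¹ := eq_inv_of_mul_eq_one_left h3
  rw [h4, cj_inv, hcy]

namespace Setup

variable {T : Set G} (hT : Setup T)

include hT in
lemma trans_mid {u v w : G} (hu : u ∈ T) (hv : IsInv v) (hw : IsInv w) (h1 : Ev u v)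
    (h2 : Ev u w) (hvT : v ∈ T) : Ev v w :=
  hT.closed v hvT u w (hT.inv u hu) hw (h1.symm (hT.inv u hu) hv) h2

/-- stabiliser of the class of `u`. -/
def M (u : G) (hu : u ∈ T) : Subgroup G where
  carrier := {g | Ev u (cj u g)}
  mul_mem' := by
    intro g h hg hh
    have h1 : Ev (cj u h) (cj (cj u g) h) := Ev.cj hg h
    rw [cj_cj] at h1
    exact hT.closed u hu _ _ ((hT.inv u hu).cj h) ((hT.inv u hu).cj _) hh h1
  one_mem' := by
    show Ev u (cj u 1)
    rw [cj_one]; exact Ev.refl (hT.inv u hu)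
  inv_mem' := by
    intro g hg
    have h1 : Ev (cj u g⁻¹) (cj (cj u g) g⁻¹) := Ev.cj hg g⁻¹
    rw [cj_cj, mul_inv_cancel, cj_one] at h1
    exact h1.symm ((hT.inv u hu).cj _) (hT.inv u hu)

lemma mem_M {u : G} {hu : u ∈ T} {g : G} : g ∈ hT.M u hu ↔ Ev u (cj u g) := Iff.rfl

lemma mem_M_of_commute {u : G} (hu : u ∈ T) {g : G} (h : Commute g u) : g ∈ hT.M u hu := by
  rw [mem_M, cj_eq_iff_commute.2 h]
  exact Ev.refl (hT.inv u hu)

lemma ev_of_inv_mem_M {u : G} (hu : u ∈ T) {t : G} (ht : IsInv t) (h : t ∈ hT.M u hu) :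
    Ev u t := by
  rw [mem_M] at h
  unfold Ev at h
  have e : u * cj u t = (u * t) ^ 2 := by
    unfold cj
    rw [ht.inv_eq, pow_two]
    simp only [mul_assoc]
  rw [e, ← pow_mul] at h
  rcases hT.spec (u * t) with h1 | h1
  · exact h1
  · have h2 : orderOf (u * t) ∣ 2 * 4 := orderOf_dvd_of_pow_eq_one h
    have h3 : Nat.Coprime (orderOf (u * t)) (2 * 4) := by
      have : Nat.Coprime (orderOf (u * t)) (2 ^ 3) :=
        Nat.Coprime.pow_right 3 (Nat.coprime_two_right.2 h1)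
      simpa using this
    have h4 : orderOf (u * t) = 1 := Nat.eq_one_of_dvd_coprimes h3 dvd_rfl h2
    rw [orderOf_eq_one_iff] at h4
    unfold Ev
    rw [h4, one_pow]

lemma M_cj {u : G} (hu : u ∈ T) {x : G} (h : x ∈ hT.M u hu) (g : G) :
    cj x g ∈ hT.M (cj u g) (hT.conj u hu g) := by
  rw [mem_M] at h ⊢
  have e : cj (cj u g) (cj x g) = cj (cj u x) g := by
    simp only [cj]; group
  rw [e]
  exact h.cj g

/-- two-class stabiliser -/
def D (u s : G) (hu : u ∈ T) (hs : s ∈ T) : Subgroup G := hT.M u hu ⊓ hT.M s hs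

variable {u s : G} (hu : u ∈ T) (hs : s ∈ T) (hus : ¬ Ev u s)

include hus in
lemma D_no4 {g : G} (hg : g ∈ hT.D u s hu hs) (h4 : g ^ 4 = 1) : g = 1 := by
  by_contra hne
  obtain ⟨t, ht, hh⟩ := exists_inv_of_pow_four h4 hne
  have htD : t ∈ hT.D u s hu hs := by
    rcases hh with rfl | rfl
    · exact hg
    · exact Subgroup.mul_mem _ hg hg
  have h1 : Ev u t := hT.ev_of_inv_mem_M hu ht htD.1
  have h2 : Ev s t := hT.ev_of_inv_mem_M hs ht htD.2
  exact hus (hT.closed u hu t s ht (hT.inv s hs) h1 (h2.symm (hT.inv s hs) ht))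

include hus in
lemma D_commute_u {g : G} (hg : g ∈ hT.D u s hu hs) (h : Commute g u) : g = 1 :=
  hT.D_no4 hu hs hus hg (pow_four_of_commute hT.spec (hT.inv u hu) h)

lemma D_swap {w : G} (h1 : cj u w = s) (h2 : cj s w = u) :
    ∀ x ∈ hT.D u s hu hs, cj x w ∈ hT.D u s hu hs := by
  intro x hx
  constructor
  · have := hT.M_cj hs hx.2 w
    rw [SetLike.mem_coe, mem_M] at *
    rw [h2] at this
    exact this
  · have := hT.M_cj hu hx.1 w
    rw [SetLike.mem_coe, mem_M] at *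
    rw [h1] at this
    exact this

include hus in
lemma D_inverts {w : G} (hw : IsInv w) (h1 : cj u w = s) (h2 : cj s w = u) :
    ∀ x ∈ hT.D u s hu hs, cj x w = x⁻¹ :=
  inverts hT.spec (fun _ hx h => hT.D_no4 hu hs hus hx h) hw (hT.D_swap hu hs h1 h2)

include hus in
lemma D_comm : ∀ x ∈ hT.D u s hu hs, ∀ y ∈ hT.D u s hu hs, Commute x y := by
  obtain ⟨w, hw, h1, h2⟩ := exists_swap hT.spec (hT.inv u hu) (hT.inv s hs) hus
  intro x hx y hy
  have e := hT.D_inverts hu hs hus hw h1 h2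
  have h3 := e _ (Subgroup.mul_mem _ hx hy)
  rw [cj_mul, e x hx, e y hy, mul_inv_rev] at h3
  have h4 := congrArg (fun z => z⁻¹) h3
  simp only [mul_inv_rev, inv_inv] at h4
  exact h4.symm

include hus in
lemma D_trans {v : G} (hv : IsInv v) (huv : Ev u v) : ∃ d ∈ hT.D u s hu hs, cj u d = v := by
  have hvs : ¬ Ev v s := fun h => hus (hT.closed u hu v s hv (hT.inv s hs) huv h)
  obtain ⟨w, hw, h1, h2⟩ := exists_swap hT.spec (hT.inv u hu) (hT.inv s hs) hus
  obtain ⟨w', hw', h1', h2'⟩ := exists_swap hT.spec hv (hT.inv s hs) hvs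
  have e1 : cj u (w * w') = v := by rw [← cj_cj, h1, h2']
  refine ⟨w * w', ⟨?_, ?_⟩, e1⟩
  · show Ev u (cj u (w * w'))
    rw [e1]; exact huv
  · show Ev s (cj s (w * w'))
    rw [← cj_cj, h2, ← h1']
    exact (huv.symm (hT.inv u hu) hv).cj w'

include hT hu hs hus in
lemma mem_T_of_ev {v : G} (hv : IsInv v) (huv : Ev u v) : v ∈ T := by
  obtain ⟨d, -, hd⟩ := hT.D_trans hu hs hus hv huv
  rw [← hd]; exact hT.conj u hu d

include hus in
/-- the centraliser of `d ∈ D#` has no 4-torsion -/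
lemma A_no4 {d : G} (hd : d ∈ hT.D u s hu hs) (hd1 : d ≠ 1) {a : G} (ha : Commute a d)
    (h4 : a ^ 4 = 1) : a = 1 := by
  by_contra hne
  obtain ⟨t, ht, hh⟩ := exists_inv_of_pow_four h4 hne
  have htd : Commute d t := by
    rcases hh with rfl | rfl
    · exact ha.symm
    · exact ha.symm.mul_right ha.symm
  exact hd1 (hT.D_no4 hu hs hus hd (pow_four_of_commute hT.spec ht htd))

include hus in
lemma A_inf_M {d : G} (hd : d ∈ hT.D u s hu hs) (hd1 : d ≠ 1) {a : G} (ha : Commute a d)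
    (haM : a ∈ hT.M u hu) : a ∈ hT.D u s hu hs := by
  obtain ⟨d', hd', he⟩ := hT.D_trans hu hs hus ((hT.inv u hu).cj a) haM
  have h1 : cj u (a * d'⁻¹) = u := by
    rw [← cj_cj, ← he, cj_cj, mul_inv_cancel, cj_one]
  have h2 : Commute (a * d'⁻¹) u := cj_eq_iff_commute.1 h1
  have h3 : Commute (a * d'⁻¹) d := ha.mul_left (hT.D_comm hu hs hus d' hd' d hd).inv_left
  have h4 : a * d'⁻¹ = 1 := hT.A_no4 hu hs hus hd hd1 h3
    (pow_four_of_commute hT.spec (hT.inv u hu) h2)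
  rw [mul_inv_eq_one] at h4
  rw [h4]; exact hd'

include hus in
lemma D_le {t : G} (ht : t ∈ T) (hut : ¬ Ev u t) {d : G} (hd : d ∈ hT.D u s hu hs)
    (hdt : d ∈ hT.M t ht) (hd1 : d ≠ 1) : ∀ x ∈ hT.D u t hu ht, x ∈ hT.D u s hu hs := by
  intro x hx
  exact hT.A_inf_M hu hs hus hd hd1 (hT.D_comm hu ht hut x hx d ⟨hd.1, hdt⟩) hx.1

include hus in
lemma no_inverter {d k : G} (hd : d ∈ hT.D u s hu hs) (hd1 : d ≠ 1) (hk : IsInv k)
    (hku : Commute k u) (hkd : cj d k = d⁻¹) : False := by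
  have e1 : cj k d = k * (d * d) := by
    have h1 : cj d⁻¹ k = d := by rw [cj_inv, hkd, inv_inv]
    unfold cj at h1 ⊢
    rw [hk.inv_eq] at h1
    calc d⁻¹ * k * d = (k * k) * d⁻¹ * k * d := by rw [hk.1, one_mul]
      _ = k * (k * d⁻¹ * k) * d := by simp only [mul_assoc]
      _ = k * (d * d) := by rw [h1, mul_assoc]
  have h1 : Ev u k := ev_of_commute (hT.inv u hu) hk hku.symm
  have hkT : k ∈ T := hT.mem_T_of_ev hu hs hus hk h1
  have h2 : Ev (cj u d) (cj k d) := h1.cj d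
  have h3 : Ev u (cj k d) := hT.closed u hu _ _ ((hT.inv u hu).cj d) (hk.cj d) hd.1 h2
  have h4 : Ev k (cj k d) := hT.closed k hkT u _ (hT.inv u hu) (hk.cj d)
    (h1.symm (hT.inv u hu) hk) h3
  rw [e1] at h4
  unfold Ev at h4
  rw [← mul_assoc, hk.1, one_mul] at h4
  have h5 := hT.D_no4 hu hs hus (Subgroup.mul_mem _ hd hd) h4
  have h6 : d ^ 4 = 1 := by
    have : d ^ 4 = (d * d) * (d * d) := by simp only [pow_succ, pow_zero, one_mul, mul_assoc]
    rw [this, h5, one_mul]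
  exact hd1 (hT.D_no4 hu hs hus hd h6)

include hus in
/-- An element `d ≠ 1` of `D` fixes no class besides `[u]`, `[s]`. -/
theorem two_points {t : G} (ht : t ∈ T) (hut : ¬ Ev u t) {d : G} (hd : d ∈ hT.D u s hu hs)
    (hd1 : d ≠ 1) (hdt : d ∈ hT.M t ht) : Ev s t := by
  by_contra hst
  have hdt' : d ∈ hT.D u t hu ht := ⟨hd.1, hdt⟩
  obtain ⟨w1, hw1, a1, a2⟩ := exists_swap hT.spec (hT.inv u hu) (hT.inv s hs) hus
  obtain ⟨w2, hw2, b1, b2⟩ := exists_swap hT.spec (hT.inv u hu) (hT.inv t ht) hut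
  have i1 := hT.D_inverts hu hs hus hw1 a1 a2
  have i2 := hT.D_inverts hu ht hut hw2 b1 b2
  obtain ⟨n, hn⟩ : ∃ n, n = w1 * w2 := ⟨_, rfl⟩
  have hdn : cj d n = d := by
    rw [hn, ← cj_cj, i1 d hd, cj_inv, i2 d hdt', inv_inv]
  obtain ⟨s', hs'⟩ : ∃ s', s' = cj s w2 := ⟨_, rfl⟩
  have hs'T : s' ∈ T := by rw [hs']; exact hT.conj s hs w2
  have hun : cj u n = s' := by rw [hn, ← cj_cj, a1, hs']
  have hus' : ¬ Ev u s' := by
    intro h
    have h1 := h.cj w2
    rw [b1, hs', cj_cj, hw2.1, cj_one] at h1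
    exact hst (h1.symm (hT.inv t ht) (hT.inv s hs))
  have hds' : d ∈ hT.M s' hs'T := by
    have h1 : d⁻¹ ∈ hT.M s hs := Subgroup.inv_mem _ hd.2
    have h2 := hT.M_cj hs h1 w2
    have h3 : cj d⁻¹ w2 = d := by rw [cj_inv, i2 d hdt', inv_inv]
    rw [h3, mem_M, ← hs'] at h2
    exact h2
  obtain ⟨w3, hw3, c1, c2⟩ := exists_swap hT.spec (hT.inv u hu) (hT.inv s' hs'T) hus'
  have i3 := hT.D_inverts hu hs'T hus' hw3 c1 c2
  obtain ⟨k, hk⟩ : ∃ k, k = n * w3 := ⟨_, rfl⟩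
  have huk : cj u k = u := by rw [hk, ← cj_cj, hun, c2]
  have hku : Commute k u := cj_eq_iff_commute.1 huk
  have hdk : cj d k = d⁻¹ := by rw [hk, ← cj_cj, hdn, i3 d ⟨hd.1, hds'⟩]
  have hk4 : k ^ 4 = 1 := pow_four_of_commute hT.spec (hT.inv u hu) hku
  have hkk : Commute (k * k) d := by
    apply cj_eq_iff_commute.1
    rw [← cj_cj, hdk, cj_inv, hdk, inv_inv]
  have hkk1 : k * k = 1 := by
    apply hT.A_no4 hu hs hus hd hd1 hkk
    rw [← pow_two, ← pow_mul, mul_comm, pow_mul, hk4, one_pow]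
  have hk1 : k ≠ 1 := by
    intro h
    rw [h, cj_one] at hdk
    have h2 : d * d = 1 := by
      nth_rewrite 2 [hdk]; exact mul_inv_cancel d
    apply hd1
    apply hT.D_no4 hu hs hus hd
    have : d ^ 4 = (d * d) * (d * d) := by simp only [pow_succ, pow_zero, one_mul, mul_assoc]
    rw [this, h2, one_mul]
  exact hT.no_inverter hu hs hus hd hd1 ⟨hkk1, hk1⟩ hku hdk

include hus in
/-- fusion in `D` -/
theorem fusion {d g : G} (hd : d ∈ hT.D u s hu hs) (hd1 : d ≠ 1)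
    (hdg : cj d g ∈ hT.D u s hu hs) : cj d g = d ∨ cj d g = d⁻¹ := by
  have hug : cj u g ∈ T := hT.conj u hu g
  have hsg : cj s g ∈ T := hT.conj s hs g
  have hd1' : cj d g ≠ 1 := by
    intro h
    rw [← one_cj g, cj_inj] at h
    exact hd1 h
  have hne : ¬ Ev (cj u g) (cj s g) := by rw [Ev.cj_iff]; exact hus
  have m1 : cj d g ∈ hT.M (cj u g) hug := hT.M_cj hu hd.1 g
  have m2 : cj d g ∈ hT.M (cj s g) hsg := hT.M_cj hs hd.2 g
  obtain ⟨w, hw, a1, a2⟩ := exists_swap hT.spec (hT.inv u hu) (hT.inv s hs) hus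
  by_cases h1 : Ev u (cj u g)
  · left
    have h2 : ¬ Ev u (cj s g) := by
      intro h2
      apply hne
      exact hT.closed _ hug u _ (hT.inv u hu) (hT.inv _ hsg) (h1.symm (hT.inv u hu) (hT.inv _ hug)) h2
    have h3 : Ev s (cj s g) := hT.two_points hu hs hus hsg h2 hdg hd1' m2
    have hg : g ∈ hT.D u s hu hs := ⟨h1, h3⟩
    exact cj_eq_iff_commute.2 (hT.D_comm hu hs hus g hg d hd)
  · right
    have h2 : Ev s (cj u g) := hT.two_points hu hs hus hug h1 hdg hd1' m1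
    have h3 : Ev u (cj s g) := by
      by_contra h3
      have h4 : Ev s (cj s g) := hT.two_points hu hs hus hsg h3 hdg hd1' m2
      apply hne
      exact hT.closed _ hug s _ (hT.inv s hs) (hT.inv _ hsg) (h2.symm (hT.inv s hs) (hT.inv _ hug)) h4
    have hg : g * w ∈ hT.D u s hu hs := by
      constructor
      · show Ev u (cj u (g * w))
        rw [← cj_cj]
        have := h2.cj w
        rwa [a2] at this
      · show Ev s (cj s (g * w))
        rw [← cj_cj]
        have := h3.cj w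
        rwa [a1] at this
    have h5 : cj d (g * w) = d := cj_eq_iff_commute.2 (hT.D_comm hu hs hus _ hg d hd)
    have h6 := hT.D_inverts hu hs hus hw a1 a2 d hd
    rw [← h6]
    conv_rhs => rw [← h5]
    rw [cj_cj, mul_assoc, hw.1, mul_one]

end Setup

end H17SZ
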