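import Pool.Agent.Helper17.SZ.Dstr

/-!
Finiteness.
-/

set_option autoImplicit false

namespace H17SZ

variable {G : Type*} [Group G]

namespace Setup

variable {T : Set G} (hT : Setup T) {u s : G} (hu : u ∈ T) (hs : s ∈ T) (hus : ¬ Ev u s)

include hus in
lemma D_finite {F : Set G} (hF : F.Finite) (hcov : ∀ g : G, ∃ x ∈ F, ∃ y, g = cj x y) :
    ((hT.D u s hu hs : Subgroup G) : Set G).Finite := by
  have h1 : ((hT.D u s hu hs : Subgroup G) : Set G) ⊆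
      {1} ∪ ⋃ x ∈ F, {d | d ∈ hT.D u s hu hs ∧ d ≠ 1 ∧ ∃ y, d = cj x y} := by
    intro d hd
    by_cases hd1 : d = 1
    · left; exact hd1
    · right
      obtain ⟨x, hx, y, hy⟩ := hcov d
      rw [Set.mem_iUnion₂]
      exact ⟨x, hx, hd, hd1, y, hy⟩
  apply Set.Finite.subset _ h1
  apply Set.Finite.union (Set.finite_singleton _)
  apply Set.Finite.biUnion hF
  intro x _
  by_cases hne : ∃ d0, d0 ∈ hT.D u s hu hs ∧ d0 ≠ 1 ∧ ∃ y, d0 = cj x y
  · obtain ⟨d0, hd0, hd01, y0, hy0⟩ := hne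
    apply Set.Finite.subset (s := {d0, d0⁻¹}) (Set.toFinite _)
    rintro d ⟨hd, _, y, hy⟩
    have h2 : d = cj d0 (y0⁻¹ * y) := by
      rw [hy0, cj_cj, hy]; congr 1; group
    rw [h2]
    have h3 := hT.fusion hu hs hus (g := y0⁻¹ * y) hd0 hd01 (by rw [← h2]; exact hd)
    rcases h3 with h3 | h3
    · left; exact h3
    · right; exact h3
  · apply Set.Finite.subset Set.finite_empty
    rintro d ⟨hd, h1, h2⟩
    exact hne ⟨d, hd, h1, h2⟩

/-- class of `u` -/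
def B (u : G) : Set G := {v | IsInv v ∧ Ev u v}

include hT hu hs hus in
lemma B_finite {F : Set G} (hF : F.Finite) (hcov : ∀ g : G, ∃ x ∈ F, ∃ y, g = cj x y) :
    (B u).Finite := by
  apply Set.Finite.subset ((hT.D_finite hu hs hus hF hcov).image (fun d => cj u d))
  rintro v ⟨hv, huv⟩
  obtain ⟨d, hd, he⟩ := hT.D_trans hu hs hus hv huv
  exact ⟨d, hd, he⟩

include hT in
lemma B_cj {u : G} {v g : G} (hv : v ∈ B u) (hu : u ∈ T) (hg : g ∈ hT.M u hu) : cj v g ∈ B u := by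
  refine ⟨hv.1.cj g, ?_⟩
  exact hT.closed u hu _ _ ((hT.inv u hu).cj g) (hv.1.cj g) hg (hv.2.cj g)

/-- centraliser of the class of `u` -/
def K0 (u : G) : Set G := {g | ∀ v ∈ B u, Commute g v}

lemma self_mem_B {u : G} (h : IsInv u) : u ∈ B u := ⟨h, Ev.refl h⟩

lemma commute_u_of_mem_K0 {u : G} (h : IsInv u) {x : G} (hx : x ∈ K0 u) : Commute x u :=
  hx u (self_mem_B h)

lemma sq_mem {u : G} (hS : Spec G) (h : IsInv u) {x : G} (hx : x ∈ K0 u) :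
    x * x ∈ insert (1 : G) (B u) := by
  have h1 := commute_u_of_mem_K0 h hx
  have h4 := pow_four_of_commute hS h h1
  by_cases h2 : x * x = 1
  · left; exact h2
  · right
    have hi : IsInv (x * x) := by
      refine ⟨?_, h2⟩
      have : x ^ 4 = (x * x) * (x * x) := by simp only [pow_succ, pow_zero, one_mul, mul_assoc]
      rw [← this]; exact h4
    exact ⟨hi, ev_of_commute h hi (h1.mul_left h1).symm⟩

lemma K0_mul {u x y : G} (hx : x ∈ K0 u) (hy : y ∈ K0 u) : x * y ∈ K0 u :=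
  fun v hv => (hx v hv).mul_left (hy v hv)

lemma K0_inv {u x : G} (hx : x ∈ K0 u) : x⁻¹ ∈ K0 u :=
  fun v hv => (hx v hv).inv_left

lemma conj_formula (x y : G) : cj x y = x * ((x * x)⁻¹ * ((x * y⁻¹) * (x * y⁻¹)) * (y * y)) := by
  simp only [cj]; group

lemma K0_orbit_finite {u : G} (hS : Spec G) (h : IsInv u) (hB : (B u).Finite) {x : G}
    (hx : x ∈ K0 u) : ((fun y => cj x y) '' (K0 u)).Finite := by
  have hB1 : (insert (1 : G) (B u)).Finite := hB.insert 1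
  have hfin : ((fun p : G × G × G => x * (p.1⁻¹ * p.2.1 * p.2.2)) ''
      ((insert (1 : G) (B u)) ×ˢ (insert (1 : G) (B u)) ×ˢ (insert (1 : G) (B u)))).Finite :=
    (hB1.prod (hB1.prod hB1)).image _
  apply hfin.subset
  rintro _ ⟨y, hy, rfl⟩
  refine ⟨(x * x, (x * y⁻¹) * (x * y⁻¹), y * y), ?_, ?_⟩
  · exact ⟨sq_mem hS h hx, sq_mem hS h (K0_mul hx (K0_inv hy)), sq_mem hS h hy⟩
  · exact (conj_formula x y).symm

include hT in
lemma exists_reps {u : G} (hu : u ∈ T) (hB : (B u).Finite) :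
    ∃ R : Set G, R.Finite ∧ (∀ r ∈ R, Commute r u) ∧
      ∀ g, Commute g u → ∃ k ∈ K0 u, ∃ r ∈ R, g = k * r := by
  haveI : Finite (B u) := hB
  let C := {g : G // Commute g u}
  have hM : ∀ g : C, g.1 ∈ hT.M u hu := fun g => hT.mem_M_of_commute hu g.2
  let Φ : C → (B u → B u) := fun g v => ⟨cj v.1 g.1, hT.B_cj v.2 hu (hM g)⟩
  have hran : (Set.range Φ).Finite := Set.toFinite _
  have hne : Nonempty C := ⟨⟨1, Commute.one_left u⟩⟩
  choose! r hr using (fun φ (hφ : φ ∈ Set.range Φ) => hφ)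
  refine ⟨(fun φ => (r φ).1) '' (Set.range Φ), hran.image _, ?_, ?_⟩
  · rintro _ ⟨φ, _, rfl⟩
    exact (r φ).2
  · intro g hg
    have h1 := hr (Φ ⟨g, hg⟩) ⟨_, rfl⟩
    refine ⟨g * (r (Φ ⟨g, hg⟩)).1⁻¹, ?_, _, ⟨Φ ⟨g, hg⟩, ⟨_, rfl⟩, rfl⟩, by simp⟩
    intro v hv
    apply cj_eq_iff_commute.1
    have h2 : cj v (r (Φ ⟨g, hg⟩)).1 = cj v g := congrArg Subtype.val (congrFun h1 ⟨v, hv⟩)
    rw [← cj_cj, ← h2, cj_cj, mul_inv_cancel, cj_one]

include hT in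
lemma fiber_finite {F : Set G} (hF : F.Finite) (hcov : ∀ g : G, ∃ x ∈ F, ∃ y, g = cj x y)
    {u : G} (hu : u ∈ T) (hB : (B u).Finite) : {x | x ∈ K0 u ∧ x * x = u}.Finite := by
  obtain ⟨R, hR, hRu, hcovR⟩ := hT.exists_reps hu hB
  have h1 : {x | x ∈ K0 u ∧ x * x = u} ⊆
      ⋃ f ∈ F, {x | (x ∈ K0 u ∧ x * x = u) ∧ ∃ y, x = cj f y} := by
    intro x hx
    obtain ⟨f, hf, y, hy⟩ := hcov x
    rw [Set.mem_iUnion₂]
    exact ⟨f, hf, hx, y, hy⟩
  apply Set.Finite.subset _ h1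
  apply Set.Finite.biUnion hF
  intro f _
  by_cases hne : ∃ x0, (x0 ∈ K0 u ∧ x0 * x0 = u) ∧ ∃ y, x0 = cj f y
  · obtain ⟨x0, ⟨hx0, hx0u⟩, y0, hy0⟩ := hne
    have hfin := K0_orbit_finite hT.spec (hT.inv u hu) hB hx0
    have hfin2 : ((fun p : G × G => cj p.1 p.2) '' (((fun y => cj x0 y) '' (K0 u)) ×ˢ R)).Finite :=
      (hfin.prod hR).image _
    apply hfin2.subset
    rintro x ⟨⟨hx, hxu⟩, y, hy⟩
    obtain ⟨g, hg⟩ : ∃ g, g = y0⁻¹ * y := ⟨_, rfl⟩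
    have h2 : x = cj x0 g := by
      rw [hg, hy0, cj_cj, hy]; congr 1; group
    have h3 : Commute g u := by
      apply cj_eq_iff_commute.1
      nth_rewrite 1 [← hx0u]
      rw [cj_mul, ← h2, hxu]
    obtain ⟨k, hk, r, hr, hkr⟩ := hcovR g h3
    refine ⟨(cj x0 k, r), ⟨⟨k, hk, rfl⟩, hr⟩, ?_⟩
    show cj (cj x0 k) r = x
    rw [cj_cj, ← hkr, h2]
  · apply Set.Finite.subset Set.finite_empty
    rintro d ⟨hd, h1⟩
    exact hne ⟨d, hd, h1⟩

include hT hu hs hus in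
lemma K0_finite {F : Set G} (hF : F.Finite) (hcov : ∀ g : G, ∃ x ∈ F, ∃ y, g = cj x y) :
    (K0 u).Finite := by
  have hB := hT.B_finite hu hs hus hF hcov
  have hQ := hT.fiber_finite hF hcov hu hB
  have h1 : K0 u ⊆ (insert (1 : G) (B u)) ∪
      ⋃ v ∈ B u, {x | x ∈ K0 u ∧ x * x = v} := by
    intro x hx
    rcases sq_mem hT.spec (hT.inv u hu) hx with h | h
    · left
      by_cases hx1 : x = 1
      · left; exact hx1
      · right
        have hxi : IsInv x := ⟨h, hx1⟩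
        exact ⟨hxi, ev_of_commute (hT.inv u hu) hxi (commute_u_of_mem_K0 (hT.inv u hu) hx).symm⟩
    · right
      rw [Set.mem_iUnion₂]
      exact ⟨_, h, hx, rfl⟩
  apply Set.Finite.subset _ h1
  apply (hB.insert 1).union
  apply Set.Finite.biUnion hB
  intro v hv
  obtain ⟨d, hd, hdv⟩ := hT.D_trans hu hs hus hv.1 hv.2
  apply (hQ.image (fun x => cj x d)).subset
  rintro x ⟨hx, hxv⟩
  refine ⟨cj x d⁻¹, ⟨?_, ?_⟩, ?_⟩
  · intro v' hv'
    have h2 : cj v' d ∈ B u := hT.B_cj hv' hu hd.1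
    have h3 := hx _ h2
    apply cj_eq_iff_commute.1
    have h4 : cj (cj v' d) x = cj v' d := cj_eq_iff_commute.2 h3
    have h5 : cj v' (cj x d⁻¹) = cj (cj (cj v' d) x) d⁻¹ := by
      simp only [cj]; group
    rw [h5, h4, cj_cj, mul_inv_cancel, cj_one]
  · rw [← cj_mul, hxv, ← hdv, cj_cj, mul_inv_cancel, cj_one]
  · show cj (cj x d⁻¹) d = x
    rw [cj_cj, inv_mul_cancel, cj_one]

include hT hu hs hus in
lemma C_finite {F : Set G} (hF : F.Finite) (hcov : ∀ g : G, ∃ x ∈ F, ∃ y, g = cj x y) :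
    {g : G | Commute g u}.Finite := by
  have hB := hT.B_finite hu hs hus hF hcov
  have hK := hT.K0_finite hu hs hus hF hcov
  obtain ⟨R, hR, hRu, hcovR⟩ := hT.exists_reps hu hB
  apply ((hK.prod hR).image (fun p : G × G => p.1 * p.2)).subset
  intro g hg
  obtain ⟨k, hk, r, hr, hkr⟩ := hcovR g hg
  exact ⟨(k, r), ⟨hk, hr⟩, hkr.symm⟩

include hT hu hs hus in
lemma M_finite {F : Set G} (hF : F.Finite) (hcov : ∀ g : G, ∃ x ∈ F, ∃ y, g = cj x y) :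
    ((hT.M u hu : Subgroup G) : Set G).Finite := by
  have hC := hT.C_finite hu hs hus hF hcov
  have hD := hT.D_finite hu hs hus hF hcov
  apply ((hC.prod hD).image (fun p : G × G => p.1 * p.2)).subset
  intro g hg
  obtain ⟨d, hd, hdv⟩ := hT.D_trans hu hs hus ((hT.inv u hu).cj g) hg
  refine ⟨(g * d⁻¹, d), ⟨?_, hd⟩, by simp⟩
  apply cj_eq_iff_commute.1
  rw [← cj_cj, ← hdv, cj_cj, mul_inv_cancel, cj_one]

include hT hu hs hus in
lemma T_finite {F : Set G} (hF : F.Finite) (hcov : ∀ g : G, ∃ x ∈ F, ∃ y, g = cj x y)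
    {v : G} (hv : IsInv v) (huv : Ev u v) (hvu : v ≠ u) :
    ({t | t ∈ T ∧ ∃ g, t = cj u g}).Finite := by
  have hB := hT.B_finite hu hs hus hF hcov
  have hM := hT.M_finite hu hs hus hF hcov
  have h1 : {t | t ∈ T ∧ ∃ g, t = cj u g} ⊆ B u ∪ ⋃ d ∈ ((hT.M u hu : Subgroup G) : Set G),
      {t | ∃ ht : t ∈ T, (∃ g, t = cj u g) ∧ ¬ Ev u t ∧ d ≠ 1 ∧ d ∈ hT.D u t hu ht} := by
    rintro t ⟨ht, g, hg⟩
    by_cases hut : Ev u t
    · left; exact ⟨hT.inv t ht, hut⟩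
    · right
      obtain ⟨d, hd, hdv⟩ := hT.D_trans hu ht hut hv huv
      have hd1 : d ≠ 1 := by
        rintro rfl
        rw [cj_one] at hdv
        exact hvu hdv.symm
      rw [Set.mem_iUnion₂]
      exact ⟨d, hd.1, ht, ⟨g, hg⟩, hut, hd1, hd⟩
  apply Set.Finite.subset _ h1
  apply hB.union
  apply Set.Finite.biUnion hM
  intro d _
  by_cases hne : ∃ t1, ∃ ht : t1 ∈ T, (∃ g, t1 = cj u g) ∧ ¬ Ev u t1 ∧ d ≠ 1 ∧
      d ∈ hT.D u t1 hu ht
  · obtain ⟨t1, ht1, ⟨g1, hg1⟩, hut1, hd1, hdt1⟩ := hne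
    apply (hB.image (fun x => cj x g1)).subset
    rintro t ⟨ht, _, hut, _, hdt⟩
    have h2 : Ev t1 t := hT.two_points hu ht1 hut1 ht hut hdt1 hd1 hdt.2
    refine ⟨cj t g1⁻¹, ⟨(hT.inv t ht).cj _, ?_⟩, ?_⟩
    · have := h2.cj g1⁻¹
      rwa [hg1, cj_cj, mul_inv_cancel, cj_one] at this
    · show cj (cj t g1⁻¹) g1 = t
      rw [cj_cj, inv_mul_cancel, cj_one]
  · apply Set.Finite.subset Set.finite_empty
    rintro t ⟨ht, a, b, c, e⟩
    exact hne ⟨t, ht, a, b, c, e⟩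

include hT hu hs hus in
theorem finite {F : Set G} (hF : F.Finite) (hcov : ∀ g : G, ∃ x ∈ F, ∃ y, g = cj x y)
    {v : G} (hv : IsInv v) (huv : Ev u v) (hvu : v ≠ u) : Finite G := by
  have hTf := hT.T_finite hu hs hus hF hcov hv huv hvu
  have hC := hT.C_finite hu hs hus hF hcov
  rw [← Set.finite_univ_iff]
  have h1 : (Set.univ : Set G) ⊆ ⋃ t ∈ {t | t ∈ T ∧ ∃ g, t = cj u g}, {g | cj u g = t} := by
    intro g _
    rw [Set.mem_iUnion₂]
    exact ⟨cj u g, ⟨hT.conj u hu g, g, rfl⟩, rfl⟩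
  apply Set.Finite.subset _ h1
  apply Set.Finite.biUnion hTf
  rintro t ⟨_, g0, hg0⟩
  apply (hC.image (fun x => x * g0)).subset
  intro g hg
  refine ⟨g * g0⁻¹, ?_, by simp⟩
  apply cj_eq_iff_commute.1
  have : cj u g = t := hg
  rw [← cj_cj, this, hg0, cj_cj, mul_inv_cancel, cj_one]

end Setup

end H17SZ
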