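import Pool.Agent.Helper17.SZ.Base

/-!
Lemma B: if `i j` is not even, `c` commutes with `i` and `c`, `j` is an even pair, then the
conjugates of `c` under powers of `i j` commute pairwise.
-/

set_option autoImplicit false

namespace H17SZ

variable {G : Type*} [Group G]

/-- subgroup generated by the `v m` with `a ≤ m ≤ b`. -/
def Iv (v : ℤ → G) (a b : ℤ) : Subgroup G := Subgroup.closure {x | ∃ m, a ≤ m ∧ m ≤ b ∧ x = v m}

lemma mem_Iv {v : ℤ → G} {a b m : ℤ} (h1 : a ≤ m) (h2 : m ≤ b) : v m ∈ Iv v a b :=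
  Subgroup.subset_closure ⟨m, h1, h2, rfl⟩

lemma Iv_mono {v : ℤ → G} {a b a' b' : ℤ} (h1 : a' ≤ a) (h2 : b ≤ b') : Iv v a b ≤ Iv v a' b' := by
  unfold Iv
  rw [Subgroup.closure_le]
  rintro x ⟨m, hm1, hm2, rfl⟩
  exact mem_Iv (by omega) (by omega)

lemma Iv_commute {v : ℤ → G} {a b : ℤ} {y : G} (h : ∀ m, a ≤ m → m ≤ b → Commute y (v m)) :
    ∀ x ∈ Iv v a b, Commute y x := by
  intro x hx
  have h1 : Iv v a b ≤ Subgroup.centralizer {y} := by
    unfold Iv
    rw [Subgroup.closure_le]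
    rintro z ⟨m, hm1, hm2, rfl⟩
    rw [SetLike.mem_coe, Subgroup.mem_centralizer_singleton_iff]
    exact (h m hm1 hm2).symm
  have h2 := h1 hx
  rw [Subgroup.mem_centralizer_singleton_iff] at h2
  exact (show Commute x y from h2).symm

lemma Iv_commute_Iv {v : ℤ → G} {a b : ℤ}
    (h : ∀ l m, a ≤ l → l ≤ b → a ≤ m → m ≤ b → Commute (v l) (v m)) :
    ∀ x ∈ Iv v a b, ∀ y ∈ Iv v a b, Commute x y := by
  intro x hx y hy
  refine Iv_commute ?_ y hy
  intro m hm1 hm2
  exact (Iv_commute (fun l hl1 hl2 => h m l hm1 hm2 hl1 hl2) x hx).symm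

/-- image of an interval under a conjugation which translates/reflects indices. -/
lemma Iv_cj {v : ℤ → G} {a b a' b' : ℤ} (g : G)
    (h : ∀ m, a ≤ m → m ≤ b → cj (v m) g ∈ Iv v a' b') :
    ∀ x ∈ Iv v a b, cj x g ∈ Iv v a' b' := by
  intro x hx
  unfold Iv at hx
  induction hx using Subgroup.closure_induction with
  | mem x hx =>
    obtain ⟨m, hm1, hm2, rfl⟩ := hx
    exact h m hm1 hm2
  | one => rw [one_cj]; exact Subgroup.one_mem _
  | mul x y _ _ hx hy => rw [cj_mul]; exact Subgroup.mul_mem _ hx hy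
  | inv x _ hx => rw [cj_inv]; exact Subgroup.inv_mem _ hx

/-- The growth step. -/
lemma step {v : ℤ → G} (hv : ∀ k, v k * v k = 1) {α β : ℤ} (hab : α < β)
    (hcom : ∀ k l : ℤ, k ≤ l → l ≤ k + (β - α) → Commute (v k) (v l)) {x x' : G}
    (hx : ∃ p ∈ Iv v (α + 1) (β - 1), p * p = 1 ∧ x = v α * v β * p)
    (hx' : ∃ p ∈ Iv v (α + 2) β, p * p = 1 ∧ x' = v (α + 1) * v (β + 1) * p)
    (hsq : x * x' * (x * x') = 1) :
    Commute (v α) (v (β + 1)) ∧
      ∃ p ∈ Iv v (α + 1) β, p * p = 1 ∧ x * x' = v α * v (β + 1) * p := by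
  obtain ⟨p, hp, hp2, rfl⟩ := hx
  obtain ⟨p', hp', hp2', rfl⟩ := hx'
  have hQ : ∀ x ∈ Iv v (α + 1) β, ∀ y ∈ Iv v (α + 1) β, Commute x y := by
    apply Iv_commute_Iv
    intro l m h1 h2 h3 h4
    rcases le_total l m with h | h
    · exact hcom l m h (by omega)
    · exact (hcom m l h (by omega)).symm
  have hα : ∀ x ∈ Iv v (α + 1) β, Commute (v α) x := by
    apply Iv_commute
    intro m h1 h2
    exact hcom α m (by omega) (by omega)
  have hβ : ∀ x ∈ Iv v (α + 1) β, Commute (v (β + 1)) x := by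
    apply Iv_commute
    intro m h1 h2
    exact (hcom m (β + 1) (by omega) (by omega)).symm
  have m1 : v β ∈ Iv v (α + 1) β := mem_Iv (by omega) (by omega)
  have m2 : v (α + 1) ∈ Iv v (α + 1) β := mem_Iv (by omega) (by omega)
  have m3 : p ∈ Iv v (α + 1) β := Iv_mono (by omega) (by omega) hp
  have m4 : p' ∈ Iv v (α + 1) β := Iv_mono (by omega) (by omega) hp'
  -- q1 = v β * p * v (α+1)
  have m5 : v β * p * v (α + 1) ∈ Iv v (α + 1) β :=
    Subgroup.mul_mem _ (Subgroup.mul_mem _ m1 m3) m2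
  have m6 : v β * p * v (α + 1) * p' ∈ Iv v (α + 1) β := Subgroup.mul_mem _ m5 m4
  have e1 : v α * v β * p * (v (α + 1) * v (β + 1) * p') =
      v α * v (β + 1) * (v β * p * v (α + 1) * p') := by
    have := hβ _ m5
    calc v α * v β * p * (v (α + 1) * v (β + 1) * p')
        = v α * ((v β * p * v (α + 1)) * v (β + 1)) * p' := by simp only [mul_assoc]
      _ = v α * (v (β + 1) * (v β * p * v (α + 1))) * p' := by rw [this.eq]
      _ = _ := by simp only [mul_assoc]
  have hq : (v β * p * v (α + 1) * p') * (v β * p * v (α + 1) * p') = 1 := by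
    have c1 : Commute (v β * p * v (α + 1)) p' := hQ _ m5 _ m4
    have c2 : Commute (v β * p) (v (α + 1)) := hQ _ (Subgroup.mul_mem _ m1 m3) _ m2
    have c3 : Commute (v β) p := hQ _ m1 _ m3
    rw [c1.symm.mul_mul_mul_comm, hp2', mul_one, c2.symm.mul_mul_mul_comm, hv, mul_one,
      c3.symm.mul_mul_mul_comm, hv, hp2, one_mul]
  set q := v β * p * v (α + 1) * p' with hqdef
  rw [e1] at hsq ⊢
  have c4 : Commute (v α * v (β + 1)) q := (hα _ m6).mul_left (hβ _ m6)
  rw [c4.symm.mul_mul_mul_comm, hq, mul_one] at hsq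
  refine ⟨?_, q, m6, hq, rfl⟩
  have h5 : v α * v (β + 1) = (v α * v (β + 1))⁻¹ := by
    rw [eq_inv_iff_mul_eq_one]; exact hsq
  have i1 : (v α)⁻¹ = v α := by rw [inv_eq_iff_mul_eq_one]; exact hv _
  have i2 : (v (β + 1))⁻¹ = v (β + 1) := by rw [inv_eq_iff_mul_eq_one]; exact hv _
  rw [mul_inv_rev, i1, i2] at h5
  exact h5

/-- conjugates `c^{a^k}` -/
def vv (a c : G) (k : ℤ) : G := cj c (a ^ k)

lemma vv_sq {a c : G} (hc : IsInv c) (k : ℤ) : vv a c k * vv a c k = 1 := (hc.cj _).1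

lemma vv_cj_pow (a c : G) (k m : ℤ) : cj (vv a c k) (a ^ m) = vv a c (k + m) := by
  unfold vv
  rw [cj_cj, ← zpow_add]

lemma conj_zpow_of_inv {a t : G} (h : t⁻¹ * a * t = a⁻¹) (k : ℤ) :
    t⁻¹ * a ^ k * t = a ^ (-k) := by
  have h1 : (MulAut.conj t⁻¹) a = a⁻¹ := by simpa using h
  have h2 := map_zpow (MulAut.conj t⁻¹ : G ≃* G) a k
  rw [h1, inv_zpow, ← zpow_neg] at h2
  simpa using h2

section main

variable {i j c : G} (hS : Spec G) (hi : IsInv i) (hj : IsInv j) (hij : ¬ Ev i j)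
  (hc : IsInv c) (hci : Commute c i) (hcj : Ev c j)

include hi hj hci in
lemma vv_cj_i (k : ℤ) : cj (vv (i * j) c k) i = vv (i * j) c (-k) := by
  have h0 : i⁻¹ * (i * j) * i = (i * j)⁻¹ := by
    rw [mul_inv_rev, hi.inv_eq, hj.inv_eq, ← mul_assoc, hi.1, one_mul]
  have h1 := conj_zpow_of_inv h0 k
  unfold vv
  rw [cj_cj]
  have h2 : (i * j) ^ k * i = i * (i * j) ^ (-k) := by
    rw [← h1]; group
  rw [h2, ← cj_cj]
  congr 1
  unfold cj
  rw [mul_assoc, hci.eq, ← mul_assoc, inv_mul_cancel, one_mul]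

include hi hj hci in
lemma vv_cj_j (k : ℤ) : cj (vv (i * j) c k) j = vv (i * j) c (1 - k) := by
  have h1 : j = i * (i * j) := by rw [← mul_assoc, hi.1, one_mul]
  have h2 : cj (vv (i * j) c k) j = cj (cj (vv (i * j) c k) i) ((i * j) ^ (1 : ℤ)) := by
    rw [cj_cj, zpow_one, ← h1]
  rw [h2, vv_cj_i hi hj hci, vv_cj_pow]
  congr 1
  ring


lemma sq_eq {x y : G} (hy : IsInv y) : x * y * (x * y) = x * cj x y := by
  unfold cj
  rw [hy.inv_eq]
  simp only [mul_assoc]

lemma commute_of_sq {x y : G} (hx : x * x = 1) (hy : y * y = 1) (h : x * y * (x * y) = 1) :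
    Commute x y := by
  have h5 : x * y = (x * y)⁻¹ := by rw [eq_inv_iff_mul_eq_one]; exact h
  have i1 : x⁻¹ = x := by rw [inv_eq_iff_mul_eq_one]; exact hx
  have i2 : y⁻¹ = y := by rw [inv_eq_iff_mul_eq_one]; exact hy
  rw [mul_inv_rev, i1, i2] at h5
  exact h5

lemma Iv_neg (v : ℤ → G) (a b : ℤ) : Iv (fun m => v (-m)) a b = Iv v (-b) (-a) := by
  unfold Iv
  congr 1
  ext x
  constructor
  · rintro ⟨m, h1, h2, rfl⟩
    exact ⟨-m, by omega, by omega, rfl⟩
  · rintro ⟨m, h1, h2, rfl⟩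
    exact ⟨-m, by omega, by omega, by simp⟩

lemma vv_translate {a c : G} {α β : ℤ} (h : Commute (vv a c α) (vv a c β)) (k : ℤ) :
    Commute (vv a c (α + k)) (vv a c (β + k)) := by
  rw [← vv_cj_pow, ← vv_cj_pow]
  show _ * _ = _ * _
  rw [← cj_mul, h.eq, cj_mul]

lemma extend {a c : G} {n : ℕ} {α β : ℤ} (hαβ : β = α + (n + 1))
    (hcom : ∀ k l : ℤ, k ≤ l → l ≤ k + n → Commute (vv a c k) (vv a c l))
    (h : Commute (vv a c α) (vv a c β)) :
    ∀ k l : ℤ, k ≤ l → l ≤ k + (n + 1 : ℕ) → Commute (vv a c k) (vv a c l) := by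
  intro k l h1 h2
  by_cases h3 : l ≤ k + n
  · exact hcom k l h1 h3
  · have e1 : k = α + (k - α) := by ring
    have e2 : l = β + (k - α) := by push_cast at h2; omega
    rw [e1, e2]
    exact vv_translate h _

include hS hi hj hij hc hci hcj in
lemma lemmaB_aux (N : ℕ) :
    (∀ k l : ℤ, k ≤ l → l ≤ k + (2 * (N + 1) : ℕ) →
      Commute (vv (i * j) c k) (vv (i * j) c l)) ∧
    ∃ x : G, x ≠ 1 ∧ Commute x i ∧ Ev x j ∧
      ∃ p ∈ Iv (vv (i * j) c) (-(N + 1) + 1) ((N + 1) - 1), p * p = 1 ∧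
        x = vv (i * j) c (-(N + 1)) * vv (i * j) c (N + 1) * p := by
  induction N with
  | zero =>
    have hv0 : vv (i * j) c 0 = c := by simp [vv]
    have hnc : ¬ Commute c j := fun h => hc.2 (eq_one_of_commute hS hi hij hci h)
    have hz : IsInv (c * j * (c * j)) := isInv_sq_of_ev hcj hnc hc hj
    have hz1 : Commute (c * j * (c * j)) c := commute_sq_left hcj hc hj
    have hz2 : Commute (c * j * (c * j)) j := commute_sq_right hcj hc hj
    have hze : c * j * (c * j) = vv (i * j) c 0 * vv (i * j) c 1 := by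
      rw [sq_eq hj]
      congr 1
      · exact hv0.symm
      · conv_lhs => rw [← hv0]
        rw [vv_cj_j hi hj hci]; rfl
    have c01 : Commute (vv (i * j) c 0) (vv (i * j) c 1) := by
      apply commute_of_sq (vv_sq hc _) (vv_sq hc _)
      rw [← hze]; exact hz.1
    set z := c * j * (c * j) with hzdef
    have hzi : Ev z i := pow_four_of_commute hS hc (hz1.symm.mul_right hci).symm
    have hznc : ¬ Commute z i := fun h => hz.2 (eq_one_of_commute hS hi hij h hz2)
    have hx : IsInv (z * i * (z * i)) := isInv_sq_of_ev hzi hznc hz hi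
    have hx1 : Commute (z * i * (z * i)) z := commute_sq_left hzi hz hi
    have hx2 : Commute (z * i * (z * i)) i := commute_sq_right hzi hz hi
    have hxe : z * i * (z * i) = vv (i * j) c 1 * vv (i * j) c (-1) := by
      rw [sq_eq hi, hze, cj_mul, vv_cj_i hi hj hci, vv_cj_i hi hj hci, neg_zero, c01.eq]
      calc vv (i * j) c 1 * vv (i * j) c 0 * (vv (i * j) c 0 * vv (i * j) c (-1))
          = vv (i * j) c 1 * (vv (i * j) c 0 * vv (i * j) c 0) * vv (i * j) c (-1) := by
            simp only [mul_assoc]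
        _ = _ := by rw [vv_sq hc, mul_one]
    have c11 : Commute (vv (i * j) c 1) (vv (i * j) c (-1)) := by
      apply commute_of_sq (vv_sq hc _) (vv_sq hc _)
      rw [← hxe]; exact hx.1
    have hxj : Ev (z * i * (z * i)) j :=
      pow_four_of_commute hS hz (hx1.symm.mul_right hz2).symm
    constructor
    · have s0 : ∀ k l : ℤ, k ≤ l → l ≤ k + (0 : ℕ) →
          Commute (vv (i * j) c k) (vv (i * j) c l) := by
        intro k l h1 h2
        have : k = l := by push_cast at h2; omega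
        rw [this]
      have s1 := extend (α := 0) (β := 1) (by norm_num) s0 c01
      have s2 := extend (α := -1) (β := 1) (by norm_num) s1 c11.symm
      intro k l h1 h2
      exact s2 k l h1 (by push_cast at h2 ⊢; linarith)
    · refine ⟨z * i * (z * i), hx.2, hx2, hxj, 1, Subgroup.one_mem _, one_mul _, ?_⟩
      rw [hxe, c11.eq, mul_one]
      norm_num
  | succ N ih =>
    obtain ⟨hcom, x, hx1, hxi, hxj, p, hp, hp2, hxe⟩ := ih
    set v := vv (i * j) c with hvdef
    obtain ⟨K, hK⟩ : ∃ K : ℤ, K = (N : ℤ) + 1 := ⟨_, rfl⟩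
    have hK1 : 1 ≤ K := by omega
    rw [← hK] at hp hxe
    have hsq : ∀ k, v k * v k = 1 := fun k => vv_sq hc k
    have hcom' : ∀ k l : ℤ, k ≤ l → l ≤ k + 2 * K → Commute (v k) (v l) := by
      intro k l h1 h2
      apply hcom k l h1
      push_cast
      linarith
    have hcom2 : ∀ k l : ℤ, k ≤ l + 2 * K → l ≤ k + 2 * K → Commute (v k) (v l) := by
      intro k l h1 h2
      rcases le_total k l with h | h
      · exact hcom' k l h h2
      · exact (hcom' l k h h1).symm
    -- x is an involution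
    have hxx : x * x = 1 := by
      have c1 : Commute (v (-K)) (v K) := hcom' _ _ (by omega) (by omega)
      have c2 : Commute (v (-K)) p := Iv_commute (fun m h1 h2 => hcom2 _ _ (by omega) (by omega)) p hp
      have c3 : Commute (v K) p := Iv_commute (fun m h1 h2 => hcom2 _ _ (by omega) (by omega)) p hp
      rw [hxe, (c2.mul_left c3).symm.mul_mul_mul_comm, hp2, mul_one, c1.symm.mul_mul_mul_comm, hsq, hsq,
        one_mul]
    have hx : IsInv x := ⟨hxx, hx1⟩
    have hnc : ¬ Commute x j := fun h => hx1 (eq_one_of_commute hS hi hij hxi h)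
    have hz : IsInv (x * j * (x * j)) := isInv_sq_of_ev hxj hnc hx hj
    have hz1 : Commute (x * j * (x * j)) x := commute_sq_left hxj hx hj
    have hz2 : Commute (x * j * (x * j)) j := commute_sq_right hxj hx hj
    have hze : x * j * (x * j) = x * cj x j := sq_eq hj
    have hcjx : cj x j = v (-K + 1) * v (K + 1) * cj p j := by
      rw [hxe, cj_mul, cj_mul, hvdef, vv_cj_j hi hj hci, vv_cj_j hi hj hci, ← hvdef]
      have e1 : 1 - -K = K + 1 := by ring
      have e2 : 1 - K = -K + 1 := by ring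
      rw [e1, e2]
      have c1 : Commute (v (K + 1)) (v (-K + 1)) := hcom2 _ _ (by omega) (by omega)
      rw [c1.eq]
    have hcjp : cj p j ∈ Iv v (-K + 2) K := by
      refine Iv_cj j ?_ p hp
      intro m h1 h2
      rw [hvdef, vv_cj_j hi hj hci, ← hvdef]
      exact mem_Iv (by omega) (by omega)
    have hcjp2 : cj p j * cj p j = 1 := by rw [← cj_mul, hp2, one_cj]
    obtain ⟨hc1, p1, hp1, hp12, hze1⟩ := step (v := v) (x' := cj x j) hsq (α := -K) (β := K) (by omega)
      (fun k l h1 h2 => hcom' k l h1 (by omega))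
      ⟨p, hp, hp2, hxe⟩ ⟨cj p j, hcjp, hcjp2, hcjx⟩ (by rw [← hze]; exact hz.1)
    rw [← hze] at hze1
    set z := x * j * (x * j) with hzdef
    have hcomA : ∀ k l : ℤ, k ≤ l → l ≤ k + 2 * K + 1 → Commute (v k) (v l) := by
      intro k l h1 h2
      have := extend (a := i * j) (c := c) (n := 2 * (N + 1)) (α := -K) (β := K + 1)
        (by push_cast; rw [hK]; ring) hcom hc1 k l h1
      apply this
      push_cast
      linarith
    have hcomA2 : ∀ k l : ℤ, k ≤ l + 2 * K + 1 → l ≤ k + 2 * K + 1 → Commute (v k) (v l) := by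
      intro k l h1 h2
      rcases le_total k l with h | h
      · exact hcomA k l h h2
      · exact (hcomA l k h h1).symm
    have hzi : Ev z i := pow_four_of_commute hS hx (hz1.symm.mul_right hxi).symm
    have hznc : ¬ Commute z i := fun h => hz.2 (eq_one_of_commute hS hi hij h hz2)
    have hy : IsInv (z * i * (z * i)) := isInv_sq_of_ev hzi hznc hz hi
    have hy1 : Commute (z * i * (z * i)) z := commute_sq_left hzi hz hi
    have hy2 : Commute (z * i * (z * i)) i := commute_sq_right hzi hz hi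
    have hye : z * i * (z * i) = z * cj z i := sq_eq hi
    have hyj : Ev (z * i * (z * i)) j :=
      pow_four_of_commute hS hz (hy1.symm.mul_right hz2).symm
    -- the reflected family
    set v' : ℤ → G := fun m => v (-m) with hv'def
    have hIv' : ∀ a b : ℤ, Iv v' a b = Iv v (-b) (-a) := fun a b => Iv_neg v a b
    have hz' : z = v' (-(K + 1)) * v' K * p1 := by
      simp only [hv'def, neg_neg]
      rw [hze1, hc1.eq]
    have hp1' : p1 ∈ Iv v' (-(K + 1) + 1) (K - 1) := by
      rw [hIv']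
      have e1 : -(K - 1) = -K + 1 := by ring
      have e2 : -(-(K + 1) + 1) = K := by ring
      rw [e1, e2]; exact hp1
    have hcjz : cj z i = v' (-(K + 1) + 1) * v' (K + 1) * cj p1 i := by
      rw [hze1, cj_mul, cj_mul, hvdef, vv_cj_i hi hj hci, vv_cj_i hi hj hci, ← hvdef]
      simp only [hv'def]
      have e1 : - -K = -(-(K + 1) + 1) := by ring
      rw [e1]
    have hcjp1 : cj p1 i ∈ Iv v' (-(K + 1) + 2) K := by
      rw [hIv']
      refine Iv_cj i ?_ p1 hp1
      intro m h1 h2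
      rw [hvdef, vv_cj_i hi hj hci, ← hvdef]
      exact mem_Iv (by omega) (by omega)
    have hcjp12 : cj p1 i * cj p1 i = 1 := by rw [← cj_mul, hp12, one_cj]
    obtain ⟨hc2, p2, hp2', hp22, hye1⟩ := step (v := v') (x := z) (x' := cj z i) (fun k => hsq _)
      (α := -(K + 1)) (β := K) (by omega)
      (fun k l h1 h2 => (hcomA2 _ _ (by omega) (by omega)))
      ⟨p1, hp1', hp12, hz'⟩ ⟨cj p1 i, hcjp1, hcjp12, hcjz⟩ (by rw [← hye]; exact hy.1)
    rw [← hye] at hye1
    simp only [hv'def, neg_neg] at hc2 hye1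
    rw [hIv'] at hp2'
    constructor
    · intro k l h1 h2
      have := extend (a := i * j) (c := c) (n := 2 * (N + 1) + 1) (α := -(K + 1)) (β := K + 1)
        (by push_cast; rw [hK]; ring)
        (fun k l h1 h2 => hcomA k l h1 (by push_cast at h2; linarith)) hc2.symm k l h1
      apply this
      push_cast at h2 ⊢
      linarith
    · refine ⟨z * i * (z * i), hy.2, hy2, hyj, p2, ?_, hp22, ?_⟩
      · have e1 : (-(((N + 1 : ℕ) : ℤ) + 1) + 1) = -K := by push_cast; rw [hK]; ring
        have e2 : ((((N + 1 : ℕ) : ℤ) + 1) - 1) = -(-(K + 1) + 1) := by push_cast; rw [hK]; ring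
        rw [e1, e2]; exact hp2'
      · have e1 : (((N + 1 : ℕ) : ℤ) + 1) = K + 1 := by push_cast; rw [hK]
        rw [e1, hye1, hc2.eq]

end main

/-- Lemma B. -/
theorem lemmaB {i j c : G} (hS : Spec G) (hi : IsInv i) (hj : IsInv j) (hij : ¬ Ev i j)
    (hc : IsInv c) (hci : Commute c i) (hcj : Ev c j) (k : ℤ) :
    Commute c (vv (i * j) c k) := by
  have hv0 : vv (i * j) c 0 = c := by simp [vv]
  obtain ⟨h, -⟩ := lemmaB_aux hS hi hj hij hc hci hcj k.natAbs
  rcases le_total 0 k with h1 | h1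
  · have := h 0 k h1 (by omega)
    rwa [hv0] at this
  · have := h k 0 h1 (by omega)
    rw [hv0] at this
    exact this.symm

end H17SZ
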