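import Pool.Agent.Helper17.SZ.LemmaB

/-!
Lemma E: in a group in which every element has order dividing 4 or odd order, and which has no
elements of order 3 (or no elements of order 4), let `e`, `j` be involutions with `e j` of order 4
and let `z` be an involution such that `e z` is even.  Then `(e j)^2 z` is even.
-/

set_option autoImplicit false

namespace H17SZ

variable {G : Type*} [Group G]

lemma closure_commute {S : Set G} (h : ∀ x ∈ S, ∀ y ∈ S, Commute x y) :
    ∀ x ∈ Subgroup.closure S, ∀ y ∈ Subgroup.closure S, Commute x y := by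
  have key : ∀ y, (∀ x ∈ S, Commute y x) → ∀ x ∈ Subgroup.closure S, Commute y x := by
    intro y hy x hx
    have h1 : Subgroup.closure S ≤ Subgroup.centralizer {y} := by
      rw [Subgroup.closure_le]
      intro z hz
      rw [SetLike.mem_coe, Subgroup.mem_centralizer_singleton_iff]
      exact (hy z hz).symm
    have h2 := h1 hx
    rw [Subgroup.mem_centralizer_singleton_iff] at h2
    exact (show Commute x y from h2).symm
  intro x hx y hy
  apply key x ?_ y hy
  intro z hz
  exact (key z (fun w hw => h z hz w hw) x hx).symm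

lemma closure_sq {S : Set G} (h : ∀ x ∈ S, ∀ y ∈ S, Commute x y) (h2 : ∀ x ∈ S, x * x = 1) :
    ∀ x ∈ Subgroup.closure S, x * x = 1 := by
  intro x hx
  induction hx using Subgroup.closure_induction with
  | mem x hx => exact h2 x hx
  | one => exact one_mul _
  | mul x y hx hy ix iy =>
    have hc := closure_commute h x hx y hy
    rw [hc.symm.mul_mul_mul_comm, ix, iy, one_mul]
  | inv x _ ix =>
    rw [← mul_inv_rev, ix, inv_one]

lemma closure_finite {S : Set G} (hS : S.Finite) (h : ∀ x ∈ S, ∀ y ∈ S, Commute x y)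
    (h2 : ∀ x ∈ S, x * x = 1) : Finite (Subgroup.closure S) := by
  haveI : Finite S := hS
  letI : CommGroup (Subgroup.closure S) := Subgroup.closureCommGroupOfComm (fun x hx y hy => h x hx y hy)
  haveI : Group.FG (Subgroup.closure S) := Group.closure_finite_fg S
  apply CommGroup.finite_of_fg_isMulTorsion
  intro x
  rw [isOfFinOrder_iff_pow_eq_one]
  refine ⟨2, by norm_num, ?_⟩
  apply Subtype.ext
  show (x : G) ^ 2 = 1
  rw [pow_two]
  exact closure_sq h h2 x x.2

/-- key consequence of Lemma B: `e` is a commutator `[w, g]` with `w` commuting with `e`, `z`. -/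
lemma exists_w {g z e : G} (hS : Spec G) (hg : IsInv g) (hz : IsInv z) (hgz : ¬ Ev g z)
    (he : IsInv e) (heg : Commute e g) (hez : Ev e z) :
    ∃ w : G, w * w = 1 ∧ Commute w e ∧ Commute w z ∧ w * cj w g = e := by
  have hB := lemmaB hS hg hz hgz he heg hez
  set v := vv (g * z) e with hv
  have hv0 : v 0 = e := by simp [hv, vv]
  have hsq : ∀ k, v k * v k = 1 := fun k => vv_sq he k
  have hcomm : ∀ k l, Commute (v k) (v l) := by
    intro k l
    have h1 : Commute (v 0) (v (l - k)) := by rw [hv0]; exact hB _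
    have h2 := vv_translate h1 k
    have e1 : (0 : ℤ) + k = k := zero_add k
    have e2 : l - k + k = l := by ring
    rw [e1, e2] at h2
    exact h2
  have hodd := odd_of_not_ev hS hgz
  have hfin : (Set.range v).Finite := by
    apply Set.Finite.subset ((Set.finite_Icc (0 : ℤ) (orderOf (g * z))).image v)
    rintro x ⟨k, rfl⟩
    refine ⟨k % (orderOf (g * z) : ℤ), ?_, ?_⟩
    · have hpos : (0 : ℤ) < orderOf (g * z) := by exact_mod_cast hodd.pos
      exact ⟨Int.emod_nonneg _ hpos.ne', (Int.emod_lt_of_pos _ hpos).le⟩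
    · simp only [hv, vv, zpow_mod_orderOf]
  have hc1 : ∀ x ∈ Set.range v, ∀ y ∈ Set.range v, Commute x y := by
    rintro _ ⟨k, rfl⟩ _ ⟨l, rfl⟩; exact hcomm k l
  have hs1 : ∀ x ∈ Set.range v, x * x = 1 := by
    rintro _ ⟨k, rfl⟩; exact hsq k
  set V := Subgroup.closure (Set.range v) with hV
  haveI hVfin : Finite V := closure_finite hfin hc1 hs1
  have hVc : ∀ x ∈ V, ∀ y ∈ V, Commute x y := closure_commute hc1
  have hVs : ∀ x ∈ V, x * x = 1 := closure_sq hc1 hs1
  have hVg : ∀ x ∈ V, cj x g ∈ V := by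
    intro x hx
    induction hx using Subgroup.closure_induction with
    | mem x hx =>
      obtain ⟨k, rfl⟩ := hx
      rw [hv, vv_cj_i hg hz heg]
      exact Subgroup.subset_closure ⟨_, rfl⟩
    | one => rw [one_cj]; exact V.one_mem
    | mul x y _ _ ix iy => rw [cj_mul]; exact V.mul_mem ix iy
    | inv x _ ix => rw [cj_inv]; exact V.inv_mem ix
  have hVz : ∀ x ∈ V, cj x z ∈ V := by
    intro x hx
    induction hx using Subgroup.closure_induction with
    | mem x hx =>
      obtain ⟨k, rfl⟩ := hx
      rw [hv, vv_cj_j hg hz heg]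
      exact Subgroup.subset_closure ⟨_, rfl⟩
    | one => rw [one_cj]; exact V.one_mem
    | mul x y _ _ ix iy => rw [cj_mul]; exact V.mul_mem ix iy
    | inv x _ ix => rw [cj_inv]; exact V.inv_mem ix
  have heV : e ∈ V := by rw [← hv0]; exact Subgroup.subset_closure ⟨0, rfl⟩
  have cjc : ∀ x y : G, IsInv y → cj x y = x → Commute x y := by
    intro x y hy h
    unfold cj at h
    rw [hy.inv_eq] at h
    show x * y = y * x
    calc x * y = (y * x * y) * y := by rw [h]
      _ = y * x * (y * y) := by simp only [mul_assoc]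
      _ = y * x := by rw [hy.1, mul_one]
  have cjc' : ∀ x y : G, Commute x y → cj x y = x := by
    intro x y h
    unfold cj
    rw [mul_assoc, h.eq, ← mul_assoc, inv_mul_cancel, one_mul]
  have cjj : ∀ x y : G, IsInv y → cj (cj x y) y = x := by
    intro x y hy
    rw [cj_cj, hy.1, cj_one]
  -- W = V ∩ C(g)
  let W := {x : G // x ∈ V ∧ Commute x g}
  haveI : Finite W := by
    have : Function.Injective (fun x : W => (⟨x.1, x.2.1⟩ : V)) := by
      intro x y h
      have := congrArg Subtype.val h
      exact Subtype.ext this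
    exact Finite.of_injective _ this
  have hN : ∀ x ∈ V, x * cj x z ∈ V ∧ Commute (x * cj x z) z := by
    intro x hx
    refine ⟨V.mul_mem hx (hVz x hx), ?_⟩
    apply cjc _ _ hz
    rw [cj_mul, cjj _ _ hz, (hVc _ hx _ (hVz x hx)).eq]
  have hM : ∀ x ∈ V, x * cj x g ∈ V ∧ Commute (x * cj x g) g := by
    intro x hx
    refine ⟨V.mul_mem hx (hVg x hx), ?_⟩
    apply cjc _ _ hg
    rw [cj_mul, cjj _ _ hg, (hVc _ hx _ (hVg x hx)).eq]
  let f : W → W := fun x => ⟨(x.1 * cj x.1 z) * cj (x.1 * cj x.1 z) g,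
    (hM _ (hN _ x.2.1).1).1, (hM _ (hN _ x.2.1).1).2⟩
  -- kernel is trivial
  have hker : ∀ x ∈ V, Commute x g → (x * cj x z) * cj (x * cj x z) g = 1 → x = 1 := by
    intro x hx hxg h
    have h1 : Commute (x * cj x z) g := by
      apply cjc _ _ hg
      have h2 : cj (x * cj x z) g = (x * cj x z)⁻¹ := by rw [eq_inv_iff_mul_eq_one]; rw [← h]; exact (hVc _ (hVg _ (hN _ hx).1) _ (hN _ hx).1).eq
      rw [h2, inv_eq_iff_mul_eq_one]
      exact hVs _ (hN _ hx).1
    have h2 : x * cj x z = 1 := eq_one_of_commute hS hg hgz h1 (hN _ hx).2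
    have h3 : Commute x z := by
      apply cjc _ _ hz
      have : cj x z = x⁻¹ := by
        rw [eq_inv_iff_mul_eq_one, ← h2]; exact (hVc _ (hVz _ hx) _ hx).eq
      rw [this, inv_eq_iff_mul_eq_one]
      exact hVs _ hx
    exact eq_one_of_commute hS hg hgz hxg h3
  have hmul : ∀ x ∈ V, ∀ y ∈ V, (x * y) * cj (x * y) z * cj ((x * y) * cj (x * y) z) g =
      ((x * cj x z) * cj (x * cj x z) g) * ((y * cj y z) * cj (y * cj y z) g) := by
    intro x hx y hy
    have h1 : (x * y) * cj (x * y) z = (x * cj x z) * (y * cj y z) := by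
      rw [cj_mul]
      exact ((hVc _ hy _ (hVz _ hx)).mul_mul_mul_comm _ _)
    rw [h1, cj_mul (x * cj x z)]
    exact ((hVc _ (hN _ hy).1 _ (hVg _ (hN _ hx).1)).mul_mul_mul_comm _ _)
  have hinj : Function.Injective f := by
    intro x y h
    have h1 : (x.1 * cj x.1 z) * cj (x.1 * cj x.1 z) g = (y.1 * cj y.1 z) * cj (y.1 * cj y.1 z) g :=
      congrArg Subtype.val h
    have h2 : x.1 * y.1 = 1 := by
      apply hker _ (V.mul_mem x.2.1 y.2.1) (x.2.2.mul_left y.2.2)
      rw [hmul _ x.2.1 _ y.2.1, h1]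
      exact hVs _ (hM _ (hN _ y.2.1).1).1
    apply Subtype.ext
    have h3 : x.1 = (y.1)⁻¹ := by rw [eq_inv_iff_mul_eq_one]; exact h2
    rw [h3, inv_eq_iff_mul_eq_one]
    exact hVs _ y.2.1
  have hsurj : Function.Surjective f := Finite.injective_iff_surjective.1 hinj
  obtain ⟨x, hx⟩ := hsurj ⟨e, heV, heg⟩
  have hx' : (x.1 * cj x.1 z) * cj (x.1 * cj x.1 z) g = e := congrArg Subtype.val hx
  refine ⟨x.1 * cj x.1 z, hVs _ (hN _ x.2.1).1, hVc _ (hN _ x.2.1).1 _ heV, (hN _ x.2.1).2, hx'⟩

theorem lemmaE (hS : Spec G) (h34 : (∀ g : G, orderOf g ≠ 3) ∨ (∀ g : G, orderOf g ≠ 4))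
    {e j z : G} (he : IsInv e) (hj : IsInv j) (hz : IsInv z) (hej : Ev e j)
    (hnc : ¬ Commute e j) (hez : Ev e z) : Ev (e * j * (e * j)) z := by
  rcases h34 with h3 | h4
  swap
  · exfalso
    apply h4 (e * j)
    have h1 : ¬ (e * j) ^ 2 ^ 1 = 1 := by
      intro h
      apply hnc
      apply commute_of_sq he.1 hj.1
      rw [pow_one, pow_two] at h
      exact h
    exact orderOf_eq_prime_pow h1 hej
  by_contra hgz
  set g := e * j * (e * j) with hgdef
  have hg : IsInv g := isInv_sq_of_ev hej hnc he hj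
  have hge : Commute g e := commute_sq_left hej he hj
  have hgj : Commute g j := commute_sq_right hej he hj
  obtain ⟨w, hw2, hwe, hwz, hwg⟩ := exists_w hS hg hz hgz he hge.symm hez
  -- conjugation by h = w * j
  have hjej : j * e * j = e * g := by
    rw [hgdef]
    calc j * e * j = (e * e) * (j * e * j) := by rw [he.1, one_mul]
      _ = e * (e * j * (e * j)) := by simp only [mul_assoc]
  have hwi : w⁻¹ = w := by rw [inv_eq_iff_mul_eq_one]; exact hw2
  have hwgw : w * g * w = e * g := by
    -- e = w * g w g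
    have h1 : w * (g * w * g) = e := by
      have : cj w g = g * w * g := by unfold cj; rw [hg.inv_eq]
      rw [← this]; exact hwg
    calc w * g * w = w * (g * w * g) * g⁻¹ := by group
      _ = e * g := by rw [h1, hg.inv_eq]
  set h := w * j with hh
  have hinvh : h⁻¹ = j * w := by rw [hh, mul_inv_rev, hj.inv_eq, hwi]
  have a1 : cj e h = e * g := by
    unfold cj
    rw [hinvh, hh]
    calc j * w * e * (w * j) = j * (w * e) * w * j := by simp only [mul_assoc]
      _ = j * (e * w) * w * j := by rw [hwe.eq]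
      _ = j * e * (w * w) * j := by simp only [mul_assoc]
      _ = e * g := by rw [hw2, mul_one, hjej]
  have a2 : cj g h = e := by
    unfold cj
    rw [hinvh, hh]
    calc j * w * g * (w * j) = j * (w * g * w) * j := by simp only [mul_assoc]
      _ = j * (e * g) * j := by rw [hwgw]
      _ = j * e * (g * j) := by simp only [mul_assoc]
      _ = j * e * (j * g) := by rw [hgj.eq]
      _ = (j * e * j) * g := by simp only [mul_assoc]
      _ = e * (g * g) := by rw [hjej, mul_assoc]
      _ = e := by rw [hg.1, mul_one]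
  have a3 : cj (e * g) h = g := by
    rw [cj_mul, a1, a2]
    calc e * g * e = e * (g * e) := by rw [mul_assoc]
      _ = e * (e * g) := by rw [hge.eq]
      _ = g := by rw [← mul_assoc, he.1, one_mul]
  have a4 : cj e (h * h * h) = e := by
    have b1 : cj (cj e (h * h)) h = cj e (h * h * h) := cj_cj _ _ _
    have b2 : cj (cj e h) h = cj e (h * h) := cj_cj _ _ _
    rw [← b1, ← b2, a1, a3, a2]
  have hc3 : Commute e (h ^ 3) := by
    have : h ^ 3 = h * h * h := by simp only [pow_succ, pow_zero, one_mul]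
    rw [this]
    unfold cj at a4
    show e * (h * h * h) = h * h * h * e
    calc e * (h * h * h) = (h * h * h) * ((h * h * h)⁻¹ * e * (h * h * h)) := by group
      _ = _ := by rw [a4]
  have hpos : 0 < orderOf h := by
    rcases hS h with h1 | h1
    · exact orderOf_pos_iff.2 (isOfFinOrder_iff_pow_eq_one.2 ⟨4, by norm_num, h1⟩)
    · exact h1.pos
  by_cases hdvd : 3 ∣ orderOf h
  · obtain ⟨m, hm⟩ := hdvd
    apply h3 (h ^ m)
    have hm0 : m ≠ 0 := by rintro rfl; omega
    rw [orderOf_pow_of_dvd hm0 ⟨3, by rw [hm]; ring⟩, hm]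
    exact Nat.mul_div_cancel _ (Nat.pos_of_ne_zero hm0)
  · have hcop : Nat.Coprime (orderOf h) 3 := by
      rw [Nat.coprime_comm]
      exact (Nat.Prime.coprime_iff_not_dvd (by norm_num)).2 hdvd
    obtain ⟨m, hm⟩ := exists_pow_eq_self_of_coprime hcop.symm
    have hc : Commute e h := by
      rw [← hm]; exact hc3.pow_right m
    have : cj e h = e := by
      unfold cj; rw [mul_assoc, hc.eq, ← mul_assoc, inv_mul_cancel, one_mul]
    rw [a1] at this
    exact hg.2 (by simpa using this)

end H17SZ
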