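import Pool.Agent.Helper17.SZ.BS
import Pool.Agent.Helper17.SZ.Count
import Pool.Agent.Helper17.SZ.Fin

/-!
Assembly of the theorem.
-/

set_option autoImplicit false

namespace H17SZ

lemma orderOf_cj {G : Type*} [Group G] (g x : G) : orderOf (cj g x) = orderOf g := by
  have h : cj g x = MulAut.conj x⁻¹ g := by rw [MulAut.conj_apply, inv_inv]; rfl
  rw [h]
  exact MulEquiv.orderOf_eq (MulAut.conj x⁻¹) g

theorem main {G : Type*} [Group G] (H : Subgroup G) [Finite H] [IsSimpleGroup H]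
    (hab : ∃ a b : H, a * b ≠ b * a) (heven : Even (Nat.card H))
    (hord : ∀ h : H, h ^ 4 = 1 ∨ Odd (orderOf h))
    (h34 : (∀ h : H, orderOf h ≠ 3) ∨ (∀ h : H, orderOf h ≠ 4))
    (hcov : ∀ g : G, ∃ x : G, x⁻¹ * g * x ∈ H) : H = ⊤ := by
  -- coverings in terms of `cj`
  have hcov' : ∀ g : G, ∃ h : H, ∃ y : G, g = cj (h : G) y := by
    intro g
    obtain ⟨x, hx⟩ := hcov g
    refine ⟨⟨_, hx⟩, x⁻¹, ?_⟩
    show g = cj (cj g x) x⁻¹
    rw [cj_cj, mul_inv_cancel, cj_one]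
  have hordG : ∀ g : G, ∃ h : H, orderOf h = orderOf g := by
    intro g
    obtain ⟨h, y, rfl⟩ := hcov' g
    exact ⟨h, by rw [orderOf_cj, Subgroup.orderOf_coe]⟩
  have hS : Spec G := by
    intro g
    obtain ⟨h, hh⟩ := hordG g
    rcases hord h with h1 | h1
    · left
      rw [← orderOf_dvd_iff_pow_eq_one, ← hh, orderOf_dvd_iff_pow_eq_one]
      exact h1
    · right
      rw [← hh]; exact h1
  have hG34 : (∀ g : G, orderOf g ≠ 3) ∨ (∀ g : G, orderOf g ≠ 4) := by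
    rcases h34 with h1 | h1
    · left
      intro g
      obtain ⟨h, hh⟩ := hordG g
      rw [← hh]; exact h1 h
    · right
      intro g
      obtain ⟨h, hh⟩ := hordG g
      rw [← hh]; exact h1 h
  -- an involution
  obtain ⟨t, ht⟩ : ∃ t : H, IsInv t := by
    obtain ⟨t, ht⟩ := exists_prime_orderOf_dvd_card' (G := H) 2 heven.two_dvd
    refine ⟨t, ?_, ?_⟩
    · have := pow_orderOf_eq_one t
      rwa [ht, pow_two] at this
    · intro h
      rw [h, orderOf_one] at ht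
      norm_num at ht
  have hInv : ∀ h : H, IsInv h ↔ IsInv (h : G) := by
    intro h
    unfold IsInv
    rw [← Subgroup.coe_mul, OneMemClass.coe_eq_one, Ne, Ne, OneMemClass.coe_eq_one]
  have hEv : ∀ a b : H, Ev a b ↔ Ev (a : G) (b : G) := by
    intro a b
    unfold Ev
    rw [← Subgroup.coe_mul, ← Subgroup.coe_pow, OneMemClass.coe_eq_one]
  have hcjH : ∀ a b : H, ((cj a b : H) : G) = cj (a : G) (b : G) := fun a b => rfl
  -- stationary involution
  obtain ⟨F', hF'⟩ : ∃ F' : Set G, F' = {g : G | g ∈ H ∧ IsInv g} := ⟨_, rfl⟩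
  have hHfin : (H : Set G).Finite := Set.toFinite _
  have hF'fin : F'.Finite := hHfin.subset (by rw [hF']; rintro x ⟨hx, _⟩; exact hx)
  have hF'ne : F'.Nonempty := ⟨(t : G), by rw [hF']; exact ⟨t.2, (hInv t).1 ht⟩⟩
  have hF'inv : ∀ x ∈ F', IsInv x := by rw [hF']; rintro x ⟨_, hx⟩; exact hx
  have hF'cov : ∀ z : G, IsInv z → ∃ x ∈ F', ∃ g, z = cj x g := by
    intro z hz
    obtain ⟨x, hx⟩ := hcov z
    refine ⟨cj z x, by rw [hF']; exact ⟨hx, hz.cj x⟩, x⁻¹, ?_⟩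
    rw [cj_cj, mul_inv_cancel, cj_one]
  obtain ⟨c, hcF, hc⟩ := exists_stat hS hG34 hF'fin hF'ne hF'inv hF'cov
  rw [hF'] at hcF
  obtain ⟨hcH, hcI⟩ := hcF
  let c' : H := ⟨c, hcH⟩
  have hc'I : IsInv c' := (hInv c').2 hcI
  -- the setup
  let T : Set G := Set.range (fun x => cj c x)
  have hT : Setup T := by
    refine ⟨hS, ?_, ?_, ?_⟩
    · rintro _ ⟨x, rfl⟩; exact hcI.cj x
    · rintro _ ⟨x, rfl⟩ g; exact ⟨x * g, (cj_cj c x g).symm⟩
    · rintro _ ⟨x, rfl⟩ d w hd hw h1 h2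
      exact (hc.cj x).closed hS hG34 hd hw h1 h2
  have hcT : c ∈ T := ⟨1, cj_one c⟩
  -- an odd pair
  obtain ⟨x, hx⟩ := exists_odd_of_simple hord hab hc'I
  have hsT : cj c (x : G) ∈ T := ⟨(x : G), rfl⟩
  have hus : ¬ Ev c (cj c (x : G)) := by
    intro h
    exact hx ((hEv c' (cj c' x)).2 h)
  -- a second point of the class of `c`
  obtain ⟨v, hvI, hcv, hvc⟩ := exists_ev_of_simple hord hab hc'I
  have hfin : Finite G := by
    refine hT.finite hcT hsT hus hHfin ?_ ((hInv v).1 hvI) ((hEv c' v).1 hcv) ?_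
    · intro g
      obtain ⟨h, y, hy⟩ := hcov' g
      exact ⟨(h : G), h.2, y, hy⟩
    · intro h
      exact hvc (Subtype.ext h)
  exact jordan H hcov

end H17SZ
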