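import Pool.Agent.Helper17.SZ.LemmaE

/-!
Stationary involutions and closure of `B(c)` under the even relation.
-/

set_option autoImplicit false

namespace H17SZ

variable {G : Type*} [Group G]

/-- every involution forming an even pair with `c` forms an even pair with `d`. -/
def Le (c d : G) : Prop := ∀ z : G, IsInv z → Ev c z → Ev d z

lemma Le.refl (c : G) : Le c c := fun _ _ h => h

lemma Le.trans {a b c : G} (h1 : Le a b) (h2 : Le b c) : Le a c :=
  fun z hz h => h2 z hz (h1 z hz h)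

lemma Le.cj {c d : G} (h : Le c d) (g : G) : Le (cj c g) (cj d g) := by
  intro z hz h1
  have h2 : Ev c (H17SZ.cj z g⁻¹) := by
    have := h1.cj g⁻¹
    rw [cj_cj, mul_inv_cancel, cj_one] at this
    exact this
  have h3 := (h _ (hz.cj _) h2).cj g
  rw [cj_cj, inv_mul_cancel, cj_one] at h3
  exact h3

lemma Spec.orderOf_pos (hS : Spec G) (g : G) : 0 < orderOf g := by
  rcases hS g with h1 | h1
  · exact orderOf_pos_iff.2 (isOfFinOrder_iff_pow_eq_one.2 ⟨4, by norm_num, h1⟩)
  · exact h1.pos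

lemma le_back (hS : Spec G) {c x : G} (h : Le c (cj c x)) : Le (cj c x) c := by
  have h1 : ∀ n : ℕ, Le (cj c x) (cj c (x ^ (n + 1))) := by
    intro n
    induction n with
    | zero => rw [zero_add, pow_one]; exact Le.refl _
    | succ n ih =>
      refine ih.trans ?_
      have := h.cj (x ^ (n + 1))
      rw [cj_cj, ← pow_succ'] at this
      exact this
  have h2 := h1 (orderOf x - 1)
  rw [Nat.sub_add_cancel (hS.orderOf_pos x), pow_orderOf_eq_one, cj_one] at h2
  exact h2

/-- stationary involutions -/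
def Stat (c : G) : Prop :=
  IsInv c ∧ ∀ d, IsInv d → Ev c d → ¬ Commute c d → Le (c * d * (c * d)) c

theorem exists_stat (hS : Spec G)
    (h34 : (∀ g : G, orderOf g ≠ 3) ∨ (∀ g : G, orderOf g ≠ 4))
    {F : Set G} (hF : F.Finite) (hne : F.Nonempty) (hinv : ∀ x ∈ F, IsInv x)
    (hcov : ∀ z : G, IsInv z → ∃ x ∈ F, ∃ g, z = cj x g) : ∃ c ∈ F, Stat c := by
  letI : Preorder G :=
    { le := fun c d => ∃ g, Le c (cj d g)
      le_refl := fun c => ⟨1, by rw [cj_one]; exact Le.refl c⟩
      le_trans := by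
        rintro a b c ⟨g, hg⟩ ⟨k, hk⟩
        refine ⟨k * g, ?_⟩
        rw [← cj_cj]
        exact hg.trans (hk.cj g) }
  obtain ⟨c, hcF, hmax⟩ := hF.exists_maximal hne
  refine ⟨c, hcF, hinv c hcF, ?_⟩
  intro d hd hcd hnc
  have hc := hinv c hcF
  have hm : IsInv (c * d * (c * d)) := isInv_sq_of_ev hcd hnc hc hd
  have h1 : Le c (c * d * (c * d)) := fun z hz h => lemmaE hS h34 hc hd hz hcd hnc h
  obtain ⟨x, hxF, g, hg⟩ := hcov _ hm
  rw [hg] at h1 ⊢
  have h2 : ∃ k, Le x (cj c k) := hmax hxF ⟨g, h1⟩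
  obtain ⟨k, hk⟩ := h2
  have h3 : Le (cj x g) (cj c (k * g)) := by
    rw [← cj_cj]; exact hk.cj g
  exact h3.trans (le_back hS (h1.trans h3))

lemma Stat.cj {c : G} (h : Stat c) (g : G) : Stat (cj c g) := by
  refine ⟨h.1.cj g, ?_⟩
  intro d hd hcd hnc
  have e : H17SZ.cj (H17SZ.cj d g⁻¹) g = d := by rw [cj_cj, inv_mul_cancel, cj_one]
  have h1 : Ev c (H17SZ.cj d g⁻¹) := by
    have := hcd.cj g⁻¹
    rw [cj_cj, mul_inv_cancel, cj_one] at this
    exact this
  have h2 : ¬ Commute c (H17SZ.cj d g⁻¹) := by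
    intro h3
    apply hnc
    rw [← e]
    show _ * _ = _ * _
    rw [← cj_mul, h3.eq, cj_mul]
  have h4 := (h.2 _ (hd.cj _) h1 h2).cj g
  rw [cj_mul, cj_mul, e] at h4
  exact h4

/-- `B(c)` is closed under the even relation if `c` is stationary. -/
theorem Stat.closed (hS : Spec G)
    (h34 : (∀ g : G, orderOf g ≠ 3) ∨ (∀ g : G, orderOf g ≠ 4))
    {c d w : G} (hc : Stat c) (hd : IsInv d) (hw : IsInv w) (h1 : Ev c d) (h2 : Ev d w) :
    Ev c w := by
  by_cases hcd : Commute c d
  · by_cases hdw : Commute d w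
    · exact pow_four_of_commute hS hd (hcd.symm.mul_right hdw).symm
    · -- m' = (d w)^2
      have hm' : IsInv (d * w * (d * w)) := isInv_sq_of_ev h2 hdw hd hw
      have h3 : Ev (d * w * (d * w)) c := lemmaE hS h34 hd hw hc.1 h2 hdw (h1.symm hc.1 hd)
      have h3' : Ev c (d * w * (d * w)) := h3.symm hm' hc.1
      have hwm : Commute (d * w * (d * w)) w := commute_sq_right h2 hd hw
      by_cases hcm : Commute c (d * w * (d * w))
      · exact pow_four_of_commute hS hm' (hcm.symm.mul_right hwm).symm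
      · have h4 : Le (c * (d * w * (d * w)) * (c * (d * w * (d * w)))) c := hc.2 _ hm' h3' hcm
        apply h4 w hw
        -- m' even with w, so (c m')^2 even with w
        have h5 : Ev (d * w * (d * w)) w := ev_of_commute hm' hw hwm
        have h6 : ¬ Commute (d * w * (d * w)) c := fun h => hcm h.symm
        have h7 := lemmaE hS h34 hm' hc.1 hw h3 h6 h5
        have h8 : c * (d * w * (d * w)) * (c * (d * w * (d * w))) =
            (d * w * (d * w)) * c * ((d * w * (d * w)) * c) := by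
          have k1 : IsInv ((d * w * (d * w)) * c * ((d * w * (d * w)) * c)) :=
            isInv_sq_of_ev h3 h6 hm' hc.1
          rw [← k1.inv_eq, mul_inv_rev, mul_inv_rev, hc.1.inv_eq, hm'.inv_eq]
        rw [h8]
        exact h7
  · -- m = (c d)^2
    have h3 : Le (c * d * (c * d)) c := hc.2 d hd h1 hcd
    apply h3 w hw
    have h4 : ¬ Commute d c := fun h => hcd h.symm
    have h5 := lemmaE hS h34 hd hc.1 hw (h1.symm hc.1 hd) h4 h2
    have h8 : c * d * (c * d) = d * c * (d * c) := by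
      have k1 : IsInv (d * c * (d * c)) := isInv_sq_of_ev (h1.symm hc.1 hd) h4 hd hc.1
      rw [← k1.inv_eq, mul_inv_rev, mul_inv_rev, hc.1.inv_eq, hd.inv_eq]
    rw [h8]
    exact h5

end H17SZ
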